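import Mathlib

/-!
# Irreducible modules of `sl2` in characteristic zero, over any field
-/

set_option autoImplicit false

namespace Pool.Agent.V1117.Sl2

open Module

variable {K : Type*} [Field K] [CharZero K] {V : Type*} [AddCommGroup V] [Module K V]

theorem pow_comm {h f : End K V} {c : K} (hf : h * f - f * h = c • f) (k : ℕ) :
    h * f ^ k = f ^ k * h + (c * k) • f ^ k := by
  induction k with
  | zero => simp
  | succ k ih =>
    have h1 : h * f = f * h + c • f := by rw [← hf]; abel
    rw [pow_succ', ← mul_assoc, h1, add_mul, mul_assoc, ih, mul_add, ← mul_assoc, smul_mul_assoc,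
      mul_smul_comm]
    push_cast
    rw [add_assoc, ← add_smul]
    congr 2
    ring

/-- An operator that is an eigenvector of `ad h` with nonzero eigenvalue is nilpotent. -/
theorem nilpotent [FiniteDimensional K V] {h f : End K V} {c : K} (hc : c ≠ 0)
    (hf : h * f - f * h = c • f) : ∃ N : ℕ, f ^ N = 0 := by
  by_contra hcon
  push Not at hcon
  let T : End K (End K V) := LinearMap.mulLeft K h - LinearMap.mulRight K h
  have h1 : ∀ k : ℕ, End.HasEigenvalue T (c * k) := by
    intro k
    refine End.hasEigenvalue_of_hasEigenvector (x := f ^ k) ⟨?_, hcon k⟩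
    rw [End.mem_eigenspace_iff]
    change h * f ^ k - f ^ k * h = (c * k) • f ^ k
    rw [pow_comm hf]
    abel
  have h2 := T.finite_hasEigenvalue
  have h3 : Set.InjOn (fun k : ℕ => c * (k : K)) Set.univ := by
    intro a _ b _ hab
    exact_mod_cast mul_left_cancel₀ hc hab
  have h4 : (Set.range fun k : ℕ => c * (k : K)).Infinite := by
    rw [← Set.image_univ]
    exact Set.infinite_univ.image h3
  refine h4 (h2.subset ?_)
  rintro _ ⟨k, rfl⟩
  exact h1 k

theorem e_pow_f {h e f : End K V} (hf : h * f - f * h = -(2 : K) • f) (hef : e * f - f * e = h)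
    {v : V} (hv : e v = 0) (k : ℕ) :
    e ((f ^ (k + 1)) v) = ((k : K) + 1) • (f ^ k) (h v - (k : K) • v) := by
  induction k with
  | zero =>
    have := LinearMap.congr_fun hef v
    simp only [LinearMap.sub_apply, End.mul_apply, hv, map_zero, sub_zero] at this
    simpa using this
  | succ k ih =>
    have h1 : e ((f ^ (k + 1 + 1)) v) = f (e ((f ^ (k + 1)) v)) + h ((f ^ (k + 1)) v) := by
      have := LinearMap.congr_fun hef ((f ^ (k + 1)) v)
      simp only [LinearMap.sub_apply, End.mul_apply] at this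
      rw [pow_succ' f (k + 1), End.mul_apply, ← this]
      abel
    have h2 : h ((f ^ (k + 1)) v) = (f ^ (k + 1)) (h v) +
        (-(2 : K) * ((k + 1 : ℕ) : K)) • (f ^ (k + 1)) v := by
      have := LinearMap.congr_fun (pow_comm hf (k + 1)) v
      simpa only [End.mul_apply, LinearMap.add_apply, LinearMap.smul_apply] using this
    rw [h1, ih, h2, map_smul, ← End.mul_apply, ← pow_succ', map_sub, map_sub, map_smul, map_smul]
    push_cast
    module

/-- The structure of an irreducible `sl2`-module, over any field of characteristic zero. -/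
theorem exists_basis [FiniteDimensional K V] [Nontrivial V] {h e f : End K V}
    (he : h * e - e * h = (2 : K) • e) (hf : h * f - f * h = -(2 : K) • f)
    (hef : e * f - f * e = h)
    (hirr : ∀ W : Submodule K V, (∀ x ∈ W, h x ∈ W) → (∀ x ∈ W, e x ∈ W) → (∀ x ∈ W, f x ∈ W) →
      W = ⊥ ∨ W = ⊤) :
    ∃ (k : ℕ) (u : Basis (Fin (k + 1)) K V), (∀ i, h (u i) = ((k : K) - 2 * (i : ℕ)) • u i) ∧
      (∀ (i : ℕ) (hi : i + 1 < k + 1), f (u ⟨i, by omega⟩) = u ⟨i + 1, hi⟩) ∧
      f (u (Fin.last k)) = 0 ∧ e (u 0) = 0 ∧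
      ∀ (i : ℕ) (hi : i + 1 < k + 1), e (u ⟨i + 1, hi⟩) =
        (((i : K) + 1) * ((k : K) - i)) • u ⟨i, by omega⟩ := by
  classical
  have h2 : (2 : K) ≠ 0 := two_ne_zero
  obtain ⟨N, hN⟩ := nilpotent h2 he
  obtain ⟨M, hM⟩ := nilpotent (neg_ne_zero.mpr h2) hf
  -- a nonzero vector killed by `e`
  have hker : ∃ v : V, v ≠ 0 ∧ e v = 0 := by
    obtain ⟨x, hx⟩ := exists_ne (0 : V)
    have hex : ∃ k, (e ^ k) x = 0 := ⟨N, by rw [hN]; rfl⟩
    have h0 : Nat.find hex ≠ 0 := by
      intro h0
      have := Nat.find_spec hex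
      rw [h0] at this
      exact hx this
    obtain ⟨k, hk⟩ := Nat.exists_eq_succ_of_ne_zero h0
    refine ⟨(e ^ k) x, Nat.find_min hex (by omega), ?_⟩
    have := Nat.find_spec hex
    rw [hk, Nat.succ_eq_add_one, pow_succ'] at this
    exact this
  have hex : ∃ m, ∃ v : V, v ≠ 0 ∧ e v = 0 ∧ (f ^ m) v = 0 := by
    obtain ⟨v, hv, hev⟩ := hker
    exact ⟨M, v, hv, hev, by rw [hM]; rfl⟩
  have hm0 : Nat.find hex ≠ 0 := by
    intro h0
    obtain ⟨v, hv, -, hv2⟩ := Nat.find_spec hex
    rw [h0] at hv2
    exact hv hv2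
  obtain ⟨k, hk⟩ := Nat.exists_eq_succ_of_ne_zero hm0
  obtain ⟨v, hv, hev, hfv⟩ := Nat.find_spec hex
  have hmin : ∀ w : V, e w = 0 → (f ^ k) w = 0 → w = 0 := by
    intro w h1 h3
    by_contra hw
    exact Nat.find_min hex (by omega : k < Nat.find hex) ⟨w, hw, h1, h3⟩
  rw [hk, Nat.succ_eq_add_one] at hfv
  have hhv : h v = (k : K) • v := by
    have h1 := e_pow_f hf hef hev k
    rw [hfv, map_zero] at h1
    have hk1 : (k : K) + 1 ≠ 0 := by exact_mod_cast Nat.succ_ne_zero k
    have h3 : (f ^ k) (h v - (k : K) • v) = 0 := by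
      rcases smul_eq_zero.mp h1.symm with h4 | h4
      · exact absurd h4 hk1
      · exact h4
    have h5 : e (h v - (k : K) • v) = 0 := by
      have h6 := LinearMap.congr_fun he v
      simp only [LinearMap.sub_apply, End.mul_apply, LinearMap.smul_apply, hev, map_zero,
        smul_zero, zero_sub, neg_eq_zero] at h6
      rw [map_sub, map_smul, hev, h6, smul_zero, sub_zero]
    exact sub_eq_zero.mp (hmin _ h5 h3)
  let u' : Fin (k + 1) → V := fun i => (f ^ (i : ℕ)) v
  have hne : ∀ i : Fin (k + 1), u' i ≠ 0 := by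
    intro i h0
    apply hv
    apply hmin v hev
    have : k = (k - i) + i := by have := i.2; omega
    rw [this, pow_add, End.mul_apply]
    change (f ^ (k - i)) (u' i) = 0
    rw [h0, map_zero]
  have hh : ∀ i : Fin (k + 1), h (u' i) = ((k : K) - 2 * (i : ℕ)) • u' i := by
    intro i
    have := LinearMap.congr_fun (pow_comm hf (i : ℕ)) v
    simp only [End.mul_apply, LinearMap.add_apply, LinearMap.smul_apply, hhv, map_smul] at this
    change h ((f ^ (i : ℕ)) v) = _
    rw [this]
    module
  have hff : ∀ (i : ℕ) (hi : i + 1 < k + 1), f (u' ⟨i, by omega⟩) = u' ⟨i + 1, hi⟩ := by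
    intro i hi
    change f ((f ^ i) v) = (f ^ (i + 1)) v
    rw [pow_succ', End.mul_apply]
  have hflast : f (u' (Fin.last k)) = 0 := by
    change f ((f ^ k) v) = 0
    rw [← End.mul_apply, ← pow_succ', hfv]
  have hee : ∀ (i : ℕ) (hi : i + 1 < k + 1), e (u' ⟨i + 1, hi⟩) =
        (((i : K) + 1) * ((k : K) - i)) • u' ⟨i, by omega⟩ := by
    intro i hi
    change e ((f ^ (i + 1)) v) = _ • (f ^ i) v
    rw [e_pow_f hf hef hev i, hhv, ← sub_smul, map_smul, smul_smul]
  have he0 : e (u' 0) = 0 := hev
  have hli : LinearIndependent K u' := by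
    refine End.eigenvectors_linearIndependent' h (fun i : Fin (k + 1) => (k : K) - 2 * (i : ℕ))
      ?_ u' fun i => ⟨End.mem_eigenspace_iff.mpr (hh i), hne i⟩
    intro a b hab
    have h3 : (2 : K) * (a : ℕ) = 2 * (b : ℕ) := sub_right_injective hab
    have h4 := mul_left_cancel₀ h2 h3
    exact Fin.ext (by exact_mod_cast h4)
  have hspan : Submodule.span K (Set.range u') = ⊤ := by
    refine (hirr _ ?_ ?_ ?_).resolve_left ?_
    · intro x hx
      have : Submodule.span K (Set.range u') ≤ (Submodule.span K (Set.range u')).comap h := by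
        rw [Submodule.span_le]
        rintro _ ⟨i, rfl⟩
        change h (u' i) ∈ Submodule.span K (Set.range u')
        rw [hh]
        exact Submodule.smul_mem _ _ (Submodule.subset_span ⟨i, rfl⟩)
      exact this hx
    · intro x hx
      have : Submodule.span K (Set.range u') ≤ (Submodule.span K (Set.range u')).comap e := by
        rw [Submodule.span_le]
        rintro _ ⟨⟨i, hi⟩, rfl⟩
        change e (u' ⟨i, hi⟩) ∈ Submodule.span K (Set.range u')
        rcases i with _ | i
        · have : e (u' ⟨0, hi⟩) = 0 := he0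
          rw [this]
          exact Submodule.zero_mem _
        · rw [hee i hi]
          exact Submodule.smul_mem _ _ (Submodule.subset_span ⟨_, rfl⟩)
      exact this hx
    · intro x hx
      have : Submodule.span K (Set.range u') ≤ (Submodule.span K (Set.range u')).comap f := by
        rw [Submodule.span_le]
        rintro _ ⟨⟨i, hi⟩, rfl⟩
        change f (u' ⟨i, hi⟩) ∈ Submodule.span K (Set.range u')
        by_cases h3 : i + 1 < k + 1
        · rw [hff i h3]
          exact Submodule.subset_span ⟨_, rfl⟩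
        · have h4 : (⟨i, hi⟩ : Fin (k + 1)) = Fin.last k := Fin.ext (by simp; omega)
          rw [h4, hflast]
          exact Submodule.zero_mem _
      exact this hx
    · intro hbot
      have : u' 0 ∈ Submodule.span K (Set.range u') := Submodule.subset_span ⟨0, rfl⟩
      rw [hbot] at this
      exact hne 0 ((Submodule.mem_bot K).mp this)
  refine ⟨k, Basis.mk hli hspan.ge, ?_, ?_, ?_, ?_, ?_⟩
  · intro i; simp only [Basis.mk_apply]; exact hh i
  · intro i hi; simp only [Basis.mk_apply]; exact hff i hi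
  · simp only [Basis.mk_apply]; exact hflast
  · simp only [Basis.mk_apply]; exact he0
  · intro i hi; simp only [Basis.mk_apply]; exact hee i hi

end Pool.Agent.V1117.Sl2
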