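import Mathlib

/-!
# Leonard systems: basic facts

Shared by several hand-ins.
-/

set_option autoImplicit false

namespace Pool.Agent.V1117.Leonard

open Polynomial Module

section defs

variable (K : Type*) [Field K] {𝒜 : Type*} [Ring 𝒜] [Algebra K 𝒜] {d : ℕ}

/-- `E_0, …, E_d` is an ordering of the primitive idempotents of the multiplicity-free element
`X`: there are mutually distinct `θ_0, …, θ_d` in `K` in the spectrum of `X`, and
`E_i = ∏_{j ≠ i} (X - θ_j) / (θ_i - θ_j)`. -/
def IsPrimitive (X : 𝒜) (E : Fin (d + 1) → 𝒜) : Prop :=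
  ∃ θ : Fin (d + 1) → K, Function.Injective θ ∧ (∀ i, θ i ∈ spectrum K X) ∧
    ∀ i, E i = aeval X (Lagrange.basis Finset.univ θ i)

/-- Leonard systems `(A; {E_i}; A^*; {E^*_i})` in a `K`-algebra `𝒜` (meant for
`𝒜 ≅ Mat_{d+1}(K)`). -/
structure IsLeonardSystem (A : 𝒜) (E : Fin (d + 1) → 𝒜) (As : 𝒜) (Es : Fin (d + 1) → 𝒜) :
    Prop where
  /-- `A` is multiplicity-free with primitive idempotents `E_0, …, E_d` -/
  prim : IsPrimitive K A E
  /-- `A^*` is multiplicity-free with primitive idempotents `E^*_0, …, E^*_d` -/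
  prims : IsPrimitive K As Es
  /-- `E_i A^* E_j = 0` if `|i - j| > 1` -/
  far : ∀ i j : Fin (d + 1), (i : ℕ) + 1 < j ∨ (j : ℕ) + 1 < i → E i * As * E j = 0
  /-- `E_i A^* E_j ≠ 0` if `|i - j| = 1` -/
  near : ∀ i j : Fin (d + 1), (i : ℕ) + 1 = j ∨ (j : ℕ) + 1 = i → E i * As * E j ≠ 0
  /-- `E^*_i A E^*_j = 0` if `|i - j| > 1` -/
  fars : ∀ i j : Fin (d + 1), (i : ℕ) + 1 < j ∨ (j : ℕ) + 1 < i → Es i * A * Es j = 0
  /-- `E^*_i A E^*_j ≠ 0` if `|i - j| = 1` -/
  nears : ∀ i j : Fin (d + 1), (i : ℕ) + 1 = j ∨ (j : ℕ) + 1 = i → Es i * A * Es j ≠ 0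

variable {K}

theorem IsPrimitive.map {ℬ : Type*} [Ring ℬ] [Algebra K ℬ] (e : 𝒜 ≃ₐ[K] ℬ) {X : 𝒜}
    {E : Fin (d + 1) → 𝒜} (h : IsPrimitive K X E) : IsPrimitive K (e X) fun i => e (E i) := by
  obtain ⟨θ, h1, h2, h3⟩ := h
  refine ⟨θ, h1, fun i => ?_, fun i => ?_⟩
  · rw [AlgEquiv.spectrum_eq]
    exact h2 i
  · change e (E i) = _
    rw [h3 i]
    exact (Polynomial.aeval_algHom_apply e.toAlgHom X _).symm

theorem IsLeonardSystem.map {ℬ : Type*} [Ring ℬ] [Algebra K ℬ] (e : 𝒜 ≃ₐ[K] ℬ) {A : 𝒜}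
    {E : Fin (d + 1) → 𝒜} {As : 𝒜} {Es : Fin (d + 1) → 𝒜} (h : IsLeonardSystem K A E As Es) :
    IsLeonardSystem K (e A) (fun i => e (E i)) (e As) fun i => e (Es i) where
  prim := h.prim.map e
  prims := h.prims.map e
  far := by
    intro i j hij
    rw [← map_mul, ← map_mul, h.far i j hij, map_zero]
  near := by
    intro i j hij h0
    rw [← map_mul, ← map_mul] at h0
    exact h.near i j hij (e.injective (h0.trans (map_zero e).symm))
  fars := by
    intro i j hij
    rw [← map_mul, ← map_mul, h.fars i j hij, map_zero]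
  nears := by
    intro i j hij h0
    rw [← map_mul, ← map_mul] at h0
    exact h.nears i j hij (e.injective (h0.trans (map_zero e).symm))

end defs

section basis

variable {K : Type*} [Field K] {V : Type*} [AddCommGroup V] [Module K V] {d : ℕ}

/-- `v` is a basis of eigenvectors of `X` and `E_i` is the projection on the `i`-th vector. -/
structure Adapted (X : End K V) (E : Fin (d + 1) → End K V) (θ : Fin (d + 1) → K)
    (v : Basis (Fin (d + 1)) K V) : Prop where
  inj : Function.Injective θ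
  eig : ∀ i, X (v i) = θ i • v i
  proj : ∀ i x, E i x = v.repr x i • v i

theorem IsPrimitive.adapted (hV : finrank K V = d + 1) {X : End K V} {E : Fin (d + 1) → End K V}
    (h : IsPrimitive K X E) : ∃ θ v, Adapted X E θ v := by
  obtain ⟨θ, h1, h2, h3⟩ := h
  have : FiniteDimensional K V := Module.finite_of_finrank_eq_succ hV
  have h4 : ∀ i, End.HasEigenvalue X (θ i) := fun i => End.hasEigenvalue_iff_mem_spectrum.mpr (h2 i)
  choose u hu using fun i => (h4 i).exists_hasEigenvector
  have h5 : LinearIndependent K u := End.eigenvectors_linearIndependent' X θ h1 u hu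
  let v : Basis (Fin (d + 1)) K V := basisOfLinearIndependentOfCardEqFinrank h5 (by simp [hV])
  have hv : ∀ i, v i = u i := fun i => by simp [v]
  refine ⟨θ, v, h1, fun i => ?_, fun i x => ?_⟩
  · rw [hv]; exact (hu i).apply_eq_smul
  · have key : ∀ j, E i (v j) = if i = j then v j else 0 := by
      intro j
      rw [h3 i, hv, End.aeval_apply_of_hasEigenvector (hu j)]
      split_ifs with hij
      · subst hij
        rw [Lagrange.eval_basis_self (h1.injOn) (Finset.mem_univ _), one_smul]
      · rw [Lagrange.eval_basis_of_ne hij (Finset.mem_univ _), zero_smul]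
    conv_lhs => rw [← v.sum_repr x]
    rw [map_sum]
    simp_rw [map_smul, key, smul_ite, smul_zero]
    simp

theorem Adapted.mul_eq {X : End K V} {E : Fin (d + 1) → End K V} {θ : Fin (d + 1) → K}
    {v : Basis (Fin (d + 1)) K V} (h : Adapted X E θ v) (B : End K V) (i j : Fin (d + 1)) :
    E i * B * E j = 0 ↔ v.repr (B (v j)) i = 0 := by
  constructor
  · intro h0
    have := LinearMap.congr_fun h0 (v j)
    simp only [End.mul_apply, h.proj, Basis.repr_self, Finsupp.single_eq_same, one_smul,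
      LinearMap.zero_apply, smul_eq_zero] at this
    exact this.resolve_right (v.ne_zero i)
  · intro h0
    ext x
    simp only [End.mul_apply, h.proj, map_smul, h0, smul_zero, zero_smul,
      LinearMap.zero_apply]

/-- Below the first subdiagonal the matrix of `A` vanishes, on it it does not. -/
def Hessenberg (v : Basis (Fin (d + 1)) K V) (A : End K V) : Prop :=
  (∀ i j : Fin (d + 1), (j : ℕ) + 1 < i → v.repr (A (v j)) i = 0) ∧
    ∀ i j : Fin (d + 1), (j : ℕ) + 1 = i → v.repr (A (v j)) i ≠ 0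

/-- Above the first superdiagonal the matrix of `A` vanishes, on it it does not. -/
def Hessenberg' (v : Basis (Fin (d + 1)) K V) (A : End K V) : Prop :=
  (∀ i j : Fin (d + 1), (i : ℕ) + 1 < j → v.repr (A (v j)) i = 0) ∧
    ∀ i j : Fin (d + 1), (i : ℕ) + 1 = j → v.repr (A (v j)) i ≠ 0

/-- The vectors `p(A) x` with `p` of degree at most `r`. -/
noncomputable def poly (A : End K V) (x : V) (r : ℕ) : Submodule K V :=
  (degreeLE K r).map ((LinearMap.applyₗ x).comp (aeval A).toLinearMap)

theorem mem_poly {A : End K V} {x y : V} {r : ℕ} :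
    y ∈ poly A x r ↔ ∃ p ∈ degreeLE K r, aeval A p x = y := Iff.rfl

theorem poly_mono {A : End K V} {x : V} {r s : ℕ} (h : r ≤ s) : poly A x r ≤ poly A x s :=
  Submodule.map_mono (degreeLE_mono (by exact_mod_cast h))

theorem apply_mem_poly {A : End K V} {x y : V} {r : ℕ} (h : y ∈ poly A x r) :
    A y ∈ poly A x (r + 1) := by
  obtain ⟨p, hp, rfl⟩ := mem_poly.mp h
  refine mem_poly.mpr ⟨X * p, ?_, ?_⟩
  · rw [mem_degreeLE] at hp ⊢
    refine (degree_mul_le _ _).trans ?_
    rw [degree_X, add_comm]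
    push_cast
    exact add_le_add_left hp 1
  · rw [map_mul, aeval_X, End.mul_apply]

theorem Hessenberg.mem_poly {v : Basis (Fin (d + 1)) K V} {A : End K V} (h : Hessenberg v A) :
    ∀ (r : ℕ) (hr : r < d + 1), v ⟨r, hr⟩ ∈ poly A (v 0) r := by
  intro r
  induction r using Nat.strong_induction_on with
  | _ r ih =>
    intro hr
    rcases r with _ | r
    · refine Leonard.mem_poly.mpr ⟨1, ?_, ?_⟩
      · rw [mem_degreeLE]; simp
      · simp
    · have h1 := v.sum_repr (A (v ⟨r, by omega⟩))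
      set c := v.repr (A (v ⟨r, by omega⟩)) with hc
      have hne : c ⟨r + 1, hr⟩ ≠ 0 := h.2 ⟨r + 1, hr⟩ ⟨r, by omega⟩ rfl
      have h2 : c ⟨r + 1, hr⟩ • v ⟨r + 1, hr⟩ = A (v ⟨r, by omega⟩) -
          ∑ i ∈ Finset.univ.erase (⟨r + 1, hr⟩ : Fin (d + 1)), c i • v i := by
        rw [← h1, ← Finset.add_sum_erase _ _ (Finset.mem_univ (⟨r + 1, hr⟩ : Fin (d + 1)))]
        abel
      have h3 : c ⟨r + 1, hr⟩ • v ⟨r + 1, hr⟩ ∈ poly A (v 0) (r + 1) := by
        rw [h2]
        refine Submodule.sub_mem _ (apply_mem_poly (ih r (by omega) _)) ?_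
        refine Submodule.sum_mem _ fun i hi => ?_
        rcases lt_trichotomy (i : ℕ) (r + 1) with hlt | heq | hgt
        · exact Submodule.smul_mem _ _ (poly_mono hlt.le (ih i hlt i.2))
        · exact absurd (Fin.ext heq) (Finset.ne_of_mem_erase hi)
        · have : c i = 0 := h.1 i ⟨r, by omega⟩ hgt
          rw [this, zero_smul]
          exact Submodule.zero_mem _
      have h4 := Submodule.smul_mem _ (c ⟨r + 1, hr⟩)⁻¹ h3
      rwa [smul_smul, inv_mul_cancel₀ hne, one_smul] at h4

theorem repr_aeval {w : Basis (Fin (d + 1)) K V} {A : End K V} {θ : Fin (d + 1) → K}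
    (hw : ∀ i, A (w i) = θ i • w i) (p : K[X]) (x : V) (j : Fin (d + 1)) :
    w.repr (aeval A p x) j = p.eval (θ j) * w.repr x j := by
  have key : ∀ i, aeval A p (w i) = p.eval (θ i) • w i := fun i =>
    End.aeval_apply_of_hasEigenvector ⟨End.mem_eigenspace_iff.mpr (hw i), w.ne_zero i⟩
  conv_lhs => rw [← w.sum_repr x]
  simp_rw [map_sum, map_smul, key, map_smul, Basis.repr_self]
  simp [Finsupp.single_apply, mul_comm]

theorem Hessenberg.repr_ne {v w : Basis (Fin (d + 1)) K V} {A : End K V} {θ : Fin (d + 1) → K}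
    (h : Hessenberg v A) (hw : ∀ i, A (w i) = θ i • w i) (j : Fin (d + 1)) :
    w.repr (v 0) j ≠ 0 := by
  intro h0
  have h1 : ∀ i, w.repr (v i) j = 0 := by
    intro i
    obtain ⟨p, -, hp⟩ := Leonard.mem_poly.mp (h.mem_poly i i.2)
    have : v i = aeval A p (v 0) := by rw [hp]
    rw [this, repr_aeval hw, h0, mul_zero]
  have h2 : (w.coord j : V →ₗ[K] K) = 0 := by
    refine v.ext fun i => ?_
    rw [Basis.coord_apply, h1, LinearMap.zero_apply]
  have h3 := LinearMap.congr_fun h2 (w j)
  simp at h3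

theorem Hessenberg'.repr_ne {v w : Basis (Fin (d + 1)) K V} {A : End K V} {θ : Fin (d + 1) → K}
    (h : Hessenberg' v A) (hw : ∀ i, A (w i) = θ i • w i) (j : Fin (d + 1)) :
    v.repr (w j) 0 ≠ 0 := by
  intro h0
  have key : ∀ (r : ℕ) (hr : r < d + 1), v.repr (w j) ⟨r, hr⟩ = 0 := by
    intro r
    induction r using Nat.strong_induction_on with
    | _ r ih =>
      intro hr
      rcases r with _ | r
      · exact h0
      · have h1 : v.repr (A (w j)) ⟨r, by omega⟩ = 0 := by
          rw [hw, map_smul, Finsupp.smul_apply, ih r (by omega), smul_zero]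
        have h2 : v.repr (A (w j)) ⟨r, by omega⟩ =
            ∑ i, v.repr (w j) i * v.repr (A (v i)) ⟨r, by omega⟩ := by
          conv_lhs => rw [← v.sum_repr (w j)]
          simp_rw [map_sum, map_smul]
          simp
        rw [h1, Finset.sum_eq_single (⟨r + 1, hr⟩ : Fin (d + 1))] at h2
        · exact (mul_eq_zero.mp h2.symm).resolve_right (h.2 ⟨r, by omega⟩ ⟨r + 1, hr⟩ rfl)
        · intro i _ hi
          rcases lt_trichotomy (i : ℕ) (r + 1) with hlt | heq | hgt
          · rw [show i = ⟨i, i.2⟩ from rfl, ih i hlt i.2, zero_mul]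
          · exact absurd (Fin.ext heq) hi
          · rw [h.1 ⟨r, by omega⟩ i hgt, mul_zero]
        · intro hn
          exact absurd (Finset.mem_univ _) hn
  have : w j = 0 := by
    apply v.repr.injective
    ext i
    rw [key i i.2]
    simp
  exact w.ne_zero j this

/-- Vectors whose `v`-coordinates vanish beyond `r` and whose `w`-coordinates vanish outside a set
of at most `d - r` elements are zero. -/
theorem Hessenberg.eq_zero {v w : Basis (Fin (d + 1)) K V} {A : End K V} {θ : Fin (d + 1) → K}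
    (h : Hessenberg v A) (hθ : Function.Injective θ) (hw : ∀ i, A (w i) = θ i • w i) (r : ℕ)
    (L : Finset (Fin (d + 1))) (hL : L.card + r ≤ d) (x : V)
    (h1 : ∀ i : Fin (d + 1), r < i → v.repr x i = 0) (h2 : ∀ j, j ∉ L → w.repr x j = 0) :
    x = 0 := by
  have h3 : x ∈ poly A (v 0) r := by
    rw [← v.sum_repr x]
    refine Submodule.sum_mem _ fun i _ => ?_
    by_cases hi : r < (i : ℕ)
    · rw [h1 i hi, zero_smul]; exact Submodule.zero_mem _
    · exact Submodule.smul_mem _ _ (poly_mono (not_lt.mp hi) (h.mem_poly i i.2))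
  obtain ⟨p, hp, rfl⟩ := Leonard.mem_poly.mp h3
  have h4 : ∀ j, j ∉ L → p.eval (θ j) = 0 := by
    intro j hj
    have := h2 j hj
    rw [repr_aeval hw] at this
    exact (mul_eq_zero.mp this).resolve_right (h.repr_ne hw j)
  have h5 : p = 0 := by
    classical
    refine Polynomial.eq_zero_of_degree_lt_of_eval_finset_eq_zero
      ((Finset.univ \ L).map ⟨θ, hθ⟩) ?_ ?_
    · rw [Finset.card_map, Finset.card_sdiff_of_subset (Finset.subset_univ L), Finset.card_univ,
        Fintype.card_fin]
      rw [mem_degreeLE] at hp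
      refine hp.trans_lt ?_
      exact_mod_cast (by omega : r < d + 1 - L.card)
    · intro y hy
      obtain ⟨j, hj, rfl⟩ := Finset.mem_map.mp hy
      exact h4 j (Finset.mem_sdiff.mp hj).2
  rw [h5]
  simp

/-- The reversed basis. -/
noncomputable def rev (v : Basis (Fin (d + 1)) K V) : Basis (Fin (d + 1)) K V :=
  v.reindex Fin.revPerm

theorem rev_apply (v : Basis (Fin (d + 1)) K V) (i : Fin (d + 1)) : rev v i = v i.rev := by
  simp [rev]

theorem rev_repr (v : Basis (Fin (d + 1)) K V) (x : V) (i : Fin (d + 1)) :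
    (rev v).repr x i = v.repr x i.rev := by
  simp [rev]

theorem Hessenberg'.rev {v : Basis (Fin (d + 1)) K V} {A : End K V} (h : Hessenberg' v A) :
    Hessenberg (rev v) A := by
  constructor
  · intro i j hij
    rw [rev_repr, rev_apply]
    refine h.1 _ _ ?_
    rw [Fin.val_rev, Fin.val_rev]
    omega
  · intro i j hij
    rw [rev_repr, rev_apply]
    refine h.2 _ _ ?_
    rw [Fin.val_rev, Fin.val_rev]
    omega

theorem Hessenberg.rev {v : Basis (Fin (d + 1)) K V} {A : End K V} (h : Hessenberg v A) :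
    Hessenberg' (rev v) A := by
  constructor
  · intro i j hij
    rw [rev_repr, rev_apply]
    refine h.1 _ _ ?_
    rw [Fin.val_rev, Fin.val_rev]
    omega
  · intro i j hij
    rw [rev_repr, rev_apply]
    refine h.2 _ _ ?_
    rw [Fin.val_rev, Fin.val_rev]
    omega

theorem rev_zero (v : Basis (Fin (d + 1)) K V) : Leonard.rev v 0 = v (Fin.last d) := by
  rw [rev_apply, Fin.rev_zero]

/-- The data of a Leonard system in `End V`. -/
theorem IsLeonardSystem.bases (hV : finrank K V = d + 1) {A : End K V}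
    {E : Fin (d + 1) → End K V} {As : End K V} {Es : Fin (d + 1) → End K V}
    (h : IsLeonardSystem K A E As Es) :
    ∃ θ w θs v, Adapted A E θ w ∧ Adapted As Es θs v ∧ Hessenberg v A ∧ Hessenberg' v A ∧
      Hessenberg w As ∧ Hessenberg' w As := by
  obtain ⟨θ, w, h1⟩ := h.prim.adapted hV
  obtain ⟨θs, v, h2⟩ := h.prims.adapted hV
  refine ⟨θ, w, θs, v, h1, h2, ⟨?_, ?_⟩, ⟨?_, ?_⟩, ⟨?_, ?_⟩, ⟨?_, ?_⟩⟩
  · intro i j hij
    exact (h2.mul_eq A i j).mp (h.fars i j (Or.inr hij))
  · intro i j hij h0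
    exact h.nears i j (Or.inr hij) ((h2.mul_eq A i j).mpr h0)
  · intro i j hij
    exact (h2.mul_eq A i j).mp (h.fars i j (Or.inl hij))
  · intro i j hij h0
    exact h.nears i j (Or.inl hij) ((h2.mul_eq A i j).mpr h0)
  · intro i j hij
    exact (h1.mul_eq As i j).mp (h.far i j (Or.inr hij))
  · intro i j hij h0
    exact h.near i j (Or.inr hij) ((h1.mul_eq As i j).mpr h0)
  · intro i j hij
    exact (h1.mul_eq As i j).mp (h.far i j (Or.inl hij))
  · intro i j hij h0
    exact h.near i j (Or.inl hij) ((h1.mul_eq As i j).mpr h0)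

end basis

end Pool.Agent.V1117.Leonard
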