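import Mathlib

/-!
# Hermitian forms on right quaternionic spaces and skew-adjoint operators

Invariant maximal nonnegative subspaces.
-/

set_option autoImplicit false

namespace Pool.Agent.V1117.QuatForm

open Quaternion MulOpposite

/-- Similarity of quaternions. -/
def Sim (a b : ℍ[ℝ]) : Prop := ∃ q : ℍ[ℝ], q ≠ 0 ∧ b = q⁻¹ * a * q

theorem Sim.refl (a : ℍ[ℝ]) : Sim a a := ⟨1, one_ne_zero, by simp⟩

theorem Sim.re {a b : ℍ[ℝ]} (h : Sim a b) : b.re = a.re := by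
  obtain ⟨q, hq, rfl⟩ := h
  have h1 : ∀ x y : ℍ[ℝ], (x * y).re = (y * x).re := by
    intro x y; simp; ring
  rw [mul_assoc, h1, mul_assoc, mul_inv_cancel₀ hq, mul_one]

theorem Sim.symm {a b : ℍ[ℝ]} (h : Sim a b) : Sim b a := by
  obtain ⟨q, hq, rfl⟩ := h
  refine ⟨q⁻¹, inv_ne_zero hq, ?_⟩
  rw [inv_inv, ← mul_assoc, ← mul_assoc, mul_inv_cancel₀ hq, one_mul, mul_assoc,
    mul_inv_cancel₀ hq, mul_one]

theorem Sim.neg {a b : ℍ[ℝ]} (h : Sim a b) : Sim (-a) (-b) := by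
  obtain ⟨q, hq, rfl⟩ := h
  exact ⟨q, hq, by simp⟩

theorem sim_star (a : ℍ[ℝ]) : Sim a (star a) := by
  -- find `q ≠ 0` with `q * star a = a * q`
  suffices h : ∃ q : ℍ[ℝ], q ≠ 0 ∧ q * star a = a * q by
    obtain ⟨q, hq, h⟩ := h
    refine ⟨q, hq, ?_⟩
    rw [mul_assoc, ← h, ← mul_assoc, inv_mul_cancel₀ hq, one_mul]
  by_cases h0 : a.imI = 0 ∧ a.imJ = 0 ∧ a.imK = 0
  · refine ⟨1, one_ne_zero, ?_⟩
    obtain ⟨h1, h2, h3⟩ := h0
    ext <;> simp [h1, h2, h3]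
  · by_cases h1 : a.imI = 0 ∧ a.imJ = 0
    · refine ⟨⟨0, 1, 0, 0⟩, ?_, ?_⟩
      · intro h
        have := congrArg QuaternionAlgebra.imI h
        simp at this
      · obtain ⟨h1, h2⟩ := h1
        ext <;> simp [h1, h2]
    · refine ⟨⟨0, a.imJ, -a.imI, 0⟩, ?_, ?_⟩
      · intro h
        apply h1
        have e1 := congrArg QuaternionAlgebra.imI h
        have e2 := congrArg QuaternionAlgebra.imJ h
        simp at e1 e2
        exact ⟨e2, e1⟩
      · ext <;> simp <;> ring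

section eig

set_option linter.unusedSectionVars false

variable {V : Type*} [AddCommGroup V] [Module ℝ V] [Module ℍ[ℝ]ᵐᵒᵖ V]
  [IsScalarTower ℝ ℍ[ℝ]ᵐᵒᵖ V] [FiniteDimensional ℝ V]

/-- Complex numbers acting on the right. -/
noncomputable def opComplex : ℂ →+* ℍ[ℝ]ᵐᵒᵖ where
  toFun c := op (c : ℍ[ℝ])
  map_one' := by simp
  map_mul' a b := by
    rw [mul_comm, Quaternion.coeComplex_mul, op_mul]
  map_zero' := by simp
  map_add' a b := by
    rw [Quaternion.coeComplex_add, op_add]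

/-- Every endomorphism of a nonzero right quaternionic space has an eigenvector. -/
theorem exists_eig [Nontrivial V] (f : V →ₗ[ℍ[ℝ]ᵐᵒᵖ] V) :
    ∃ v : V, v ≠ 0 ∧ ∃ l : ℍ[ℝ], f v = op l • v := by
  let _ : Module ℂ V := Module.compHom V opComplex
  have hsm : ∀ (c : ℂ) (v : V), c • v = op (c : ℍ[ℝ]) • v := fun c v => rfl
  have : IsScalarTower ℝ ℂ V := ⟨fun r c v => by
    rw [hsm, hsm]
    have : op ((r • c : ℂ) : ℍ[ℝ]) = r • op (c : ℍ[ℝ]) := by
      rw [← op_smul]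
      congr 1
      ext <;> simp
    rw [this, smul_assoc]⟩
  have : FiniteDimensional ℂ V := Module.Finite.of_restrictScalars_finite ℝ ℂ V
  let f' : Module.End ℂ V :=
    { toFun := f
      map_add' := f.map_add
      map_smul' := fun c v => f.map_smul (opComplex c) v }
  obtain ⟨c, hc⟩ := Module.End.exists_eigenvalue f'
  obtain ⟨v, hv⟩ := hc.exists_hasEigenvector
  exact ⟨v, hv.2, c, hv.apply_eq_smul⟩

/-- Relative eigenvectors. -/
theorem exists_rel_eig (f : V →ₗ[ℍ[ℝ]ᵐᵒᵖ] V) {N U : Submodule ℍ[ℝ]ᵐᵒᵖ V} (hNU : N < U)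
    (hN : ∀ x ∈ N, f x ∈ N) (hU : ∀ x ∈ U, f x ∈ U) :
    ∃ v ∈ U, v ∉ N ∧ ∃ l : ℍ[ℝ], f v - op l • v ∈ N := by
  let g := N.mapQ N f hN
  let W := U.map N.mkQ
  have hg : ∀ x ∈ W, g x ∈ W := by
    rintro _ ⟨x, hx, rfl⟩
    exact ⟨f x, hU x hx, rfl⟩
  obtain ⟨u, huU, huN⟩ := Set.exists_of_ssubset hNU
  have : Nontrivial W := by
    refine ⟨⟨⟨N.mkQ u, u, huU, rfl⟩, 0, ?_⟩⟩
    intro h
    apply huN
    have := congrArg Subtype.val h
    exact (Submodule.Quotient.mk_eq_zero N).mp this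
  have hQ : FiniteDimensional ℝ (V ⧸ N) :=
    Module.Finite.of_surjective (N.mkQ.restrictScalars ℝ) N.mkQ_surjective
  have hW : FiniteDimensional ℝ W :=
    (inferInstance : FiniteDimensional ℝ (W.restrictScalars ℝ))
  obtain ⟨⟨w, v, hv, rfl⟩, hne, l, hl⟩ := exists_eig (g.restrict hg)
  refine ⟨v, hv, ?_, l, ?_⟩
  · intro h
    apply hne
    apply Subtype.ext
    exact (Submodule.Quotient.mk_eq_zero N).mpr h
  · have h1 := congrArg Subtype.val hl
    rw [← Submodule.Quotient.mk_eq_zero N]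
    exact sub_eq_zero.mpr h1

/-- Relative surjectivity. -/
theorem rel_surj (T : V →ₗ[ℍ[ℝ]ᵐᵒᵖ] V) {N U : Submodule ℍ[ℝ]ᵐᵒᵖ V}
    (hN : ∀ x ∈ N, T x ∈ N) (hU : ∀ x ∈ U, T x ∈ U) (hinj : ∀ z ∈ U, T z ∈ N → z ∈ N) :
    ∀ y ∈ U, ∃ z ∈ U, y - T z ∈ N := by
  let g := N.mapQ N T hN
  let W := U.map N.mkQ
  have hg : ∀ x ∈ W, g x ∈ W := by
    rintro _ ⟨x, hx, rfl⟩
    exact ⟨T x, hU x hx, rfl⟩
  have : FiniteDimensional ℍ[ℝ]ᵐᵒᵖ V := Module.Finite.of_restrictScalars_finite ℝ ℍ[ℝ]ᵐᵒᵖ V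
  have h1 : Function.Injective (g.restrict hg) := by
    rw [injective_iff_map_eq_zero]
    rintro ⟨w, v, hv, rfl⟩ h
    have h2 := congrArg Subtype.val h
    apply Subtype.ext
    refine (Submodule.Quotient.mk_eq_zero N).mpr (hinj v hv ?_)
    exact (Submodule.Quotient.mk_eq_zero N).mp h2
  have h2 := LinearMap.injective_iff_surjective.mp h1
  intro y hy
  obtain ⟨⟨w, z, hz, rfl⟩, h⟩ := h2 ⟨N.mkQ y, y, hy, rfl⟩
  refine ⟨z, hz, ?_⟩
  have h3 := congrArg Subtype.val h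
  rw [← Submodule.Quotient.mk_eq_zero N]
  exact sub_eq_zero.mpr h3.symm

/-- The real quadratic polynomial of `l` evaluated at `f`. -/
noncomputable def chi (f : V →ₗ[ℍ[ℝ]ᵐᵒᵖ] V) (l : ℍ[ℝ]) : V →ₗ[ℍ[ℝ]ᵐᵒᵖ] V :=
  f * f - (2 * l.re) • f + (normSq l) • 1

theorem chi_apply (f : V →ₗ[ℍ[ℝ]ᵐᵒᵖ] V) (l : ℍ[ℝ]) (x : V) :
    chi f l x = f (f x) - (2 * l.re) • f x + normSq l • x := rfl

theorem chi_mem (f : V →ₗ[ℍ[ℝ]ᵐᵒᵖ] V) (l : ℍ[ℝ]) {N : Submodule ℍ[ℝ]ᵐᵒᵖ V}
    (hN : ∀ x ∈ N, f x ∈ N) : ∀ x ∈ N, chi f l x ∈ N := by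
  intro x hx
  rw [chi_apply]
  exact N.add_mem (N.sub_mem (hN _ (hN _ hx)) (N.smul_of_tower_mem _ (hN _ hx)))
    (N.smul_of_tower_mem _ hx)

theorem real_smul (r : ℝ) (x : V) : r • x = (op (r : ℍ[ℝ]) : ℍ[ℝ]ᵐᵒᵖ) • x := by
  have : (op (r : ℍ[ℝ]) : ℍ[ℝ]ᵐᵒᵖ) = r • 1 := by
    rw [← op_one, ← op_smul]
    congr 1
    ext <;> simp
  rw [this, smul_assoc, one_smul]

/-- `χ_l` kills relative eigenvectors for `l`. -/
theorem chi_of_eig (f : V →ₗ[ℍ[ℝ]ᵐᵒᵖ] V) (l : ℍ[ℝ]) {N : Submodule ℍ[ℝ]ᵐᵒᵖ V}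
    (hN : ∀ x ∈ N, f x ∈ N) {v : V} (hv : f v - op l • v ∈ N) : chi f l v ∈ N := by
  set m := f v - op l • v with hm
  have h1 : f v = op l • v + m := by rw [hm]; abel
  have h2 : f (f v) = op l • (op l • v + m) + f m := by
    rw [h1, map_add, map_smul, h1]
  have h3 : chi f l v = (op l • m + f m - (2 * l.re) • m) := by
    rw [chi_apply, h2, h1, real_smul (2 * l.re), real_smul (2 * l.re), real_smul (normSq l)]
    have h4 : (op l * op l - op ((2 * l.re : ℝ) : ℍ[ℝ]) * op l + op ((normSq l : ℝ) : ℍ[ℝ]) : ℍ[ℝ]ᵐᵒᵖ) = 0 := by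
      rw [← op_mul, ← op_mul, ← op_sub, ← op_add]
      have hn := Quaternion.normSq_def' l
      generalize normSq l = n at hn
      have : l * l - l * ((2 * l.re : ℝ) : ℍ[ℝ]) + (n : ℍ[ℝ]) = 0 := by
        generalize hr : 2 * l.re = r
        ext <;> simp <;> first | linear_combination hn + l.re * hr | (rw [← hr]; ring)
      rw [this, op_zero]
    have h5 := congrArg (fun z => z • v) h4
    simp only [add_smul, sub_smul, mul_smul, zero_smul] at h5
    rw [smul_add, smul_add]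
    rw [← sub_eq_zero]
    rw [← h5]
    abel
  rw [h3]
  exact N.sub_mem (N.add_mem (N.smul_mem _ hv) (hN _ hv)) (N.smul_of_tower_mem _ hv)

/-- A vector killed by `χ_l` modulo `N` gives a relative eigenvector. -/
theorem eig_of_chi (f : V →ₗ[ℍ[ℝ]ᵐᵒᵖ] V) (l : ℍ[ℝ]) {N U : Submodule ℍ[ℝ]ᵐᵒᵖ V}
    (hU : ∀ x ∈ U, f x ∈ U) {z : V} (hzU : z ∈ U) (hzN : z ∉ N) (hz : chi f l z ∈ N) :
    ∃ v ∈ U, v ∉ N ∧ ∃ l', Sim l l' ∧ f v - op l' • v ∈ N := by
  by_cases hy : f z - op (star l) • z ∈ N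
  · exact ⟨z, hzU, hzN, star l, sim_star l, hy⟩
  · refine ⟨f z - op (star l) • z, U.sub_mem (hU z hzU) (U.smul_mem _ hzU), hy, l, Sim.refl l, ?_⟩
    have h1 : f (f z - op (star l) • z) - op l • (f z - op (star l) • z) = chi f l z := by
      rw [chi_apply, map_sub, map_smul, smul_sub, smul_smul, real_smul, real_smul]
      have e1 : (op (star l) + op l : ℍ[ℝ]ᵐᵒᵖ) = op ((2 * l.re : ℝ) : ℍ[ℝ]) := by
        rw [← op_add]
        congr 1
        ext <;> simp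
        ring
      have e2 : (op l * op (star l) : ℍ[ℝ]ᵐᵒᵖ) = op ((normSq l : ℝ) : ℍ[ℝ]) := by
        rw [← op_mul, Quaternion.star_mul_self]
      rw [e2, ← e1, add_smul]
      abel
    rw [h1]
    exact hz

end eig

section form

variable {V : Type*} [AddCommGroup V] [Module ℍ[ℝ]ᵐᵒᵖ V]

/-- Hermitian forms on a right quaternionic space. -/
structure IsHerm (G : V → V → ℍ[ℝ]) : Prop where
  add_right : ∀ x y z, G x (y + z) = G x y + G x z
  smul_right : ∀ x y (q : ℍ[ℝ]), G x (op q • y) = G x y * q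
  symm : ∀ x y, G y x = star (G x y)

namespace IsHerm

variable {G : V → V → ℍ[ℝ]} (hG : IsHerm G)

include hG

theorem add_left (x y z : V) : G (x + y) z = G x z + G y z := by
  rw [hG.symm z, hG.add_right, star_add, ← hG.symm, ← hG.symm]

theorem smul_left (x y : V) (q : ℍ[ℝ]) : G (op q • x) y = star q * G x y := by
  rw [hG.symm y, hG.smul_right, star_mul, ← hG.symm]

theorem neg : IsHerm fun x y => -G x y where
  add_right x y z := by rw [hG.add_right]; abel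
  smul_right x y q := by rw [hG.smul_right, neg_mul]
  symm x y := by rw [hG.symm, star_neg]

theorem zero_right (x : V) : G x 0 = 0 := by
  have := hG.smul_right x 0 0
  simpa using this

theorem neg_right (x y : V) : G x (-y) = -G x y := by
  rw [eq_neg_iff_add_eq_zero, ← hG.add_right, neg_add_cancel, hG.zero_right]

theorem sub_right (x y z : V) : G x (y - z) = G x y - G x z := by
  rw [sub_eq_add_neg, hG.add_right, hG.neg_right, sub_eq_add_neg]

theorem neg_left (x y : V) : G (-x) y = -G x y := by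
  rw [hG.symm y, hG.neg_right, star_neg, ← hG.symm]

theorem sub_left (x y z : V) : G (x - y) z = G x z - G y z := by
  rw [sub_eq_add_neg, hG.add_left, hG.neg_left, sub_eq_add_neg]

theorem self (x : V) : G x x = ((G x x).re : ℍ[ℝ]) := by
  have h := hG.symm x x
  have e1 := congrArg QuaternionAlgebra.imI h
  have e2 := congrArg QuaternionAlgebra.imJ h
  have e3 := congrArg QuaternionAlgebra.imK h
  simp at e1 e2 e3
  ext
  · simp
  · simp; linarith
  · simp; linarith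
  · simp; linarith

theorem swap {x y : V} (h : G x y = 0) : G y x = 0 := by
  rw [hG.symm x y, h, star_zero]

/-- `G x` as a right linear functional. -/
def lin (x : V) : V →ₗ[ℍ[ℝ]ᵐᵒᵖ] ℍ[ℝ] where
  toFun := G x
  map_add' := hG.add_right x
  map_smul' q y := hG.smul_right x y (unop q)

/-- The orthogonal companion. -/
def perp (N : Submodule ℍ[ℝ]ᵐᵒᵖ V) : Submodule ℍ[ℝ]ᵐᵒᵖ V where
  carrier := {x | ∀ n ∈ N, G n x = 0}
  add_mem' {x y} hx hy n hn := by rw [hG.add_right, hx n hn, hy n hn, add_zero]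
  zero_mem' n hn := hG.zero_right n
  smul_mem' q x hx n hn := by
    change G n (op (unop q) • x) = 0
    rw [hG.smul_right, hx n hn, zero_mul]

omit hG in
theorem mem_perp {hG : IsHerm G} {N : Submodule ℍ[ℝ]ᵐᵒᵖ V} {x : V} :
    x ∈ hG.perp N ↔ ∀ n ∈ N, G n x = 0 := Iff.rfl

end IsHerm

/-- Invariant subspaces. -/
def Inv (f : V → V) (L : Submodule ℍ[ℝ]ᵐᵒᵖ V) : Prop := ∀ x ∈ L, f x ∈ L

/-- Neutral subspaces. -/
def Neutral (G : V → V → ℍ[ℝ]) (L : Submodule ℍ[ℝ]ᵐᵒᵖ V) : Prop := ∀ x ∈ L, ∀ y ∈ L, G x y = 0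

/-- Nonnegative subspaces. -/
def Nonneg (G : V → V → ℍ[ℝ]) (L : Submodule ℍ[ℝ]ᵐᵒᵖ V) : Prop := ∀ x ∈ L, 0 ≤ (G x x).re

/-- Maximal nonnegative subspaces. -/
def MaxNonneg (G : V → V → ℍ[ℝ]) (L : Submodule ℍ[ℝ]ᵐᵒᵖ V) : Prop :=
  Nonneg G L ∧ ∀ L' : Submodule ℍ[ℝ]ᵐᵒᵖ V, L ≤ L' → Nonneg G L' → L' = L

variable {G : V → V → ℍ[ℝ]}

theorem Neutral.nonneg {L : Submodule ℍ[ℝ]ᵐᵒᵖ V} (h : Neutral G L) : Nonneg G L := fun x hx => by
  rw [h x hx x hx]; simp

theorem re_star_mul_self (q : ℍ[ℝ]) : (star q * q).re = normSq q := by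
  rw [Quaternion.star_mul_self]; simp

theorem norm_nonneg' (q : ℍ[ℝ]) : 0 ≤ normSq q := Quaternion.normSq_nonneg

/-- Isotropic vectors of a nonnegative subspace are in its radical. -/
theorem cs (hG : IsHerm G) {L : Submodule ℍ[ℝ]ᵐᵒᵖ V} (hL : Nonneg G L) {x y : V} (hx : x ∈ L)
    (hx0 : G x x = 0) (hy : y ∈ L) : G x y = 0 := by
  set q := G x y with hq
  have hyx : G y x = star q := hG.symm x y
  have key : ∀ t : ℝ, 0 ≤ -2 * t * normSq q + (G y y).re := by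
    intro t
    have h1 := hL (op (-(t : ℍ[ℝ]) * q) • x + y) (L.add_mem (L.smul_mem _ hx) hy)
    have h2 : G (op (-(t : ℍ[ℝ]) * q) • x + y) (op (-(t : ℍ[ℝ]) * q) • x + y) =
        -(t : ℍ[ℝ]) * (star q * q) - (t : ℍ[ℝ]) * (star q * q) + G y y := by
      rw [hG.add_right, hG.add_left, hG.add_left, hG.smul_right, hG.smul_right, hG.smul_left,
        hG.smul_left, hx0, hyx, ← hq, star_mul, star_neg, Quaternion.star_coe]
      have e : star q * -(t : ℍ[ℝ]) = -(t : ℍ[ℝ]) * star q := by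
        rw [mul_neg, neg_mul, Quaternion.coe_commutes]
      rw [e]
      have e2 : star q * (-(t : ℍ[ℝ]) * q) = -(t : ℍ[ℝ]) * (star q * q) := by
        rw [← mul_assoc, e, mul_assoc]
      rw [e2]
      simp only [mul_zero, zero_mul]
      noncomm_ring
    rw [h2, Quaternion.star_mul_self] at h1
    simp at h1
    linarith
  have h1 : normSq q = 0 := by
    by_contra hne
    have hpos : 0 < normSq q := lt_of_le_of_ne (norm_nonneg' q) (Ne.symm hne)
    have := key (((G y y).re + 1) / (2 * normSq q))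
    have e : -2 * (((G y y).re + 1) / (2 * normSq q)) * normSq q = -((G y y).re + 1) := by
      field_simp
    rw [e] at this
    linarith
  exact Quaternion.normSq_eq_zero.mp h1

end form

section core

set_option linter.unusedSectionVars false

variable {V : Type*} [AddCommGroup V] [Module ℝ V] [Module ℍ[ℝ]ᵐᵒᵖ V]
  [IsScalarTower ℝ ℍ[ℝ]ᵐᵒᵖ V] [FiniteDimensional ℝ V]

variable {G : V → V → ℍ[ℝ]} (hG : IsHerm G) (f : V →ₗ[ℍ[ℝ]ᵐᵒᵖ] V)
  (hf : ∀ x y, G (f x) y = -G x (f y))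

theorem finV : FiniteDimensional ℍ[ℝ]ᵐᵒᵖ V := Module.Finite.of_restrictScalars_finite ℝ ℍ[ℝ]ᵐᵒᵖ V

include hf in
theorem inv_perp {N : Submodule ℍ[ℝ]ᵐᵒᵖ V} (hN : Inv f N) : Inv f (hG.perp N) := by
  intro x hx n hn
  rw [← neg_eq_iff_eq_neg.mpr (hf n x), hx _ (hN n hn), neg_zero]

include hf in
theorem core {N : Submodule ℍ[ℝ]ᵐᵒᵖ V} (hN : Inv f N) (hN0 : Neutral G N)
    (hstar : ∀ v ∈ hG.perp N, ∀ l : ℍ[ℝ], f v - op l • v ∈ N → G v v = 0 → v ∈ N) :
    ∀ U : Submodule ℍ[ℝ]ᵐᵒᵖ V, N ≤ U → U ≤ hG.perp N → Inv f U →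
      ∃ L : Submodule ℍ[ℝ]ᵐᵒᵖ V, N ≤ L ∧ L ≤ U ∧ Inv f L ∧ Nonneg G L ∧
        ∀ L' : Submodule ℍ[ℝ]ᵐᵒᵖ V, L' ≤ U → Nonneg G L' → L ≤ L' → L' ≤ L := by
  have hfin : FiniteDimensional ℍ[ℝ]ᵐᵒᵖ V := finV
  intro U
  induction U using WellFoundedLT.induction with
  | ind U ih =>
  intro hNU hUp hU
  by_cases hEq : U = N
  · subst hEq
    exact ⟨U, le_rfl, le_rfl, hU, hN0.nonneg, fun L' h _ _ => h⟩
  have hlt : N < U := lt_of_le_of_ne hNU (Ne.symm hEq)
  obtain ⟨v, hvU, hvN, l, hl⟩ := exists_rel_eig f hlt hN hU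
  have hvp := hUp hvU
  set c := (G v v).re with hc
  have hcv : G v v = (c : ℍ[ℝ]) := hG.self v
  have hc0 : c ≠ 0 := by
    intro h
    apply hvN
    refine hstar v hvp l hl ?_
    rw [hcv, h]; simp
  set U₁ := U ⊓ LinearMap.ker (hG.lin v) with hU₁
  have memU₁ : ∀ x, x ∈ U₁ ↔ x ∈ U ∧ G v x = 0 := fun x => Iff.rfl
  have hlt₁ : U₁ < U := by
    refine lt_of_le_of_ne inf_le_left ?_
    intro h
    have h1 : v ∈ U₁ := h ▸ hvU
    have h2 := ((memU₁ v).mp h1).2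
    rw [hcv] at h2
    apply hc0
    have := congrArg QuaternionAlgebra.re h2
    simpa using this
  have hNU₁ : N ≤ U₁ := fun n hn => (memU₁ n).mpr ⟨hNU hn, hG.swap (hvp n hn)⟩
  have hU₁inv : Inv f U₁ := by
    intro x hx
    obtain ⟨h1, h2⟩ := (memU₁ x).mp hx
    refine (memU₁ _).mpr ⟨hU x h1, ?_⟩
    have h3 : f v = op l • v + (f v - op l • v) := by abel
    have h4 := hf v x
    rw [h3, hG.add_left, hG.smul_left, h2, mul_zero, zero_add, hUp h1 _ hl] at h4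
    exact (neg_eq_zero.mp h4.symm)
  obtain ⟨L₁, hNL₁, hL₁U₁, hL₁inv, hL₁nn, hL₁max⟩ := ih U₁ hlt₁ hNU₁ (hlt₁.le.trans hUp) hU₁inv
  have hvL₁ : ∀ x ∈ L₁, G v x = 0 := fun x hx => ((memU₁ x).mp (hL₁U₁ hx)).2
  -- the component along `v`
  have comp : ∀ y ∈ U, y - op ((c⁻¹ : ℝ) • G v y) • v ∈ U₁ := by
    intro y hy
    refine (memU₁ _).mpr ⟨U.sub_mem hy (U.smul_mem _ hvU), ?_⟩
    rw [hG.sub_right, hG.smul_right, hcv, Quaternion.coe_mul_eq_smul, smul_smul,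
      mul_inv_cancel₀ hc0, one_smul, sub_self]
  have gq : ∀ q : ℍ[ℝ], (G (op q • v) (op q • v)).re = c * normSq q := by
    intro q
    rw [hG.smul_right, hG.smul_left, hcv, mul_assoc, Quaternion.coe_mul_eq_smul, mul_smul_comm,
      Quaternion.star_mul_self]
    simp
  rcases lt_or_gt_of_ne hc0 with hneg | hpos
  · refine ⟨L₁, hNL₁, hL₁U₁.trans hlt₁.le, hL₁inv, hL₁nn, ?_⟩
    intro L' hL'U hL'nn hL₁L'
    let P : V →ₗ[ℍ[ℝ]ᵐᵒᵖ] V :=
      { toFun := fun y => y - op ((c⁻¹ : ℝ) • G v y) • v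
        map_add' := fun x y => by
          rw [hG.add_right, smul_add, op_add, add_smul]; abel
        map_smul' := fun q y => by
          have h1 : G v (q • y) = G v y * unop q := hG.smul_right v y (unop q)
          rw [h1, RingHom.id_apply, smul_sub, smul_smul, ← smul_mul_assoc, op_mul, op_unop] }
    have hP : ∀ y, P y = y - op ((c⁻¹ : ℝ) • G v y) • v := fun y => rfl
    have hle : L'.map P ≤ L₁ := by
      refine hL₁max (L'.map P) ?_ ?_ ?_
      · rintro _ ⟨y, hy, rfl⟩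
        exact comp y (hL'U hy)
      · rintro _ ⟨y, hy, rfl⟩
        have h1 := hL'nn y hy
        have h2 : (G (P y) (P y)).re = (G y y).re - c⁻¹ * normSq (G v y) := by
          have h3 : G v (P y) = 0 := ((memU₁ _).mp (comp y (hL'U hy))).2
          have h4 : G (P y) (P y) = G y y - G y (op ((c⁻¹ : ℝ) • G v y) • v) := by
            conv_lhs => rw [hP y, hG.sub_left, hG.smul_left, ← hP y, h3, mul_zero, sub_zero, hP y]
            rw [hG.sub_right]
          rw [h4, hG.smul_right, hG.symm v y, mul_smul_comm, Quaternion.star_mul_self]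
          simp
        rw [h2]
        have h5 : c⁻¹ < 0 := inv_lt_zero.mpr hneg
        nlinarith [norm_nonneg' (G v y)]
      · intro x hx
        refine ⟨x, hL₁L' hx, ?_⟩
        rw [hP, hvL₁ x hx, smul_zero, op_zero, zero_smul, sub_zero]
    intro y hy
    have h1 : P y ∈ L₁ := hle ⟨y, hy, rfl⟩
    have h2 : op ((c⁻¹ : ℝ) • G v y) • v ∈ L' := by
      have : op ((c⁻¹ : ℝ) • G v y) • v = y - P y := by rw [hP]; abel
      rw [this]
      exact L'.sub_mem hy (hL₁L' h1)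
    have h3 := hL'nn _ h2
    rw [gq] at h3
    have h4 : normSq ((c⁻¹ : ℝ) • G v y) = 0 := by
      have := norm_nonneg' ((c⁻¹ : ℝ) • G v y)
      nlinarith
    have h5 := Quaternion.normSq_eq_zero.mp h4
    have h6 : P y = y := by rw [hP, h5, op_zero, zero_smul, sub_zero]
    rwa [h6] at h1
  · refine ⟨L₁ ⊔ Submodule.span ℍ[ℝ]ᵐᵒᵖ {v}, hNL₁.trans le_sup_left,
      sup_le (hL₁U₁.trans hlt₁.le) ((Submodule.span_singleton_le_iff_mem v U).mpr hvU), ?_, ?_, ?_⟩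
    · intro x hx
      obtain ⟨a, ha, b, hb, rfl⟩ := Submodule.mem_sup.mp hx
      obtain ⟨q, rfl⟩ := Submodule.mem_span_singleton.mp hb
      rw [map_add, map_smul]
      have h3 : f v = op l • v + (f v - op l • v) := by abel
      rw [h3]
      refine add_mem ((le_sup_left : L₁ ≤ _) (hL₁inv a ha)) (Submodule.smul_mem _ _ (add_mem ?_ ?_))
      · exact (le_sup_right : _ ≤ L₁ ⊔ Submodule.span ℍ[ℝ]ᵐᵒᵖ {v})
          (Submodule.smul_mem _ _ (Submodule.mem_span_singleton_self v))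
      · exact (le_sup_left : L₁ ≤ _) (hNL₁ hl)
    · intro x hx
      obtain ⟨a, ha, b, hb, rfl⟩ := Submodule.mem_sup.mp hx
      obtain ⟨q, rfl⟩ := Submodule.mem_span_singleton.mp hb
      obtain ⟨q, rfl⟩ := op_surjective q
      have h1 : G (a + op q • v) (a + op q • v) = G a a + G (op q • v) (op q • v) := by
        rw [hG.add_right, hG.add_left, hG.add_left, hG.smul_left v a q, hvL₁ a ha, mul_zero,
          hG.smul_right a v, hG.swap (hvL₁ a ha), zero_mul, add_zero, zero_add]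
      rw [h1]
      have h2 := hL₁nn a ha
      have h3 := gq q
      have h4 := mul_nonneg hpos.le (norm_nonneg' q)
      have h5 : (G a a + G (op q • v) (op q • v)).re = (G a a).re + (G (op q • v) (op q • v)).re := rfl
      rw [h5, h3]
      linarith
    · intro L' hL'U hL'nn hle
      have hvL' : v ∈ L' := hle ((le_sup_right : _ ≤ L₁ ⊔ Submodule.span ℍ[ℝ]ᵐᵒᵖ {v})
        (Submodule.mem_span_singleton_self v))
      have h1 : L' ⊓ U₁ ≤ L₁ := hL₁max (L' ⊓ U₁) inf_le_right (fun x hx => hL'nn x hx.1)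
        (le_inf (le_sup_left.trans hle) hL₁U₁)
      intro y hy
      have h2 : y - op ((c⁻¹ : ℝ) • G v y) • v ∈ L₁ :=
        h1 ⟨L'.sub_mem hy (L'.smul_mem _ hvL'), comp y (hL'U hy)⟩
      have h3 : y = (y - op ((c⁻¹ : ℝ) • G v y) • v) + op ((c⁻¹ : ℝ) • G v y) • v := by abel
      rw [h3]
      exact add_mem ((le_sup_left : L₁ ≤ _) h2)
        ((le_sup_right : _ ≤ L₁ ⊔ Submodule.span ℍ[ℝ]ᵐᵒᵖ {v})
          (Submodule.smul_mem _ _ (Submodule.mem_span_singleton_self v)))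

include hf in
theorem exists_max {N : Submodule ℍ[ℝ]ᵐᵒᵖ V} (hN : Inv f N) (hN0 : Neutral G N)
    (hstar : ∀ v ∈ hG.perp N, ∀ l : ℍ[ℝ], f v - op l • v ∈ N → G v v = 0 → v ∈ N) :
    ∃ L : Submodule ℍ[ℝ]ᵐᵒᵖ V, N ≤ L ∧ L ≤ hG.perp N ∧ Inv f L ∧ MaxNonneg G L := by
  obtain ⟨L, h1, h2, h3, h4, h5⟩ := core hG f hf hN hN0 hstar (hG.perp N)
    (fun x hx n hn => hN0 n hn x hx) le_rfl (inv_perp hG f hf hN)
  refine ⟨L, h1, h2, h3, h4, fun L' hLL' hL' => le_antisymm (h5 L' ?_ hL' hLL') hLL'⟩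
  intro y hy n hn
  exact cs hG hL' (hLL' (h1 hn)) (hN0 n hn n hn) hy

/-- A sum of `N` and a relative eigenvector is invariant. -/
theorem inv_sup {N : Submodule ℍ[ℝ]ᵐᵒᵖ V} (hN : Inv f N) {v : V} {l : ℍ[ℝ]}
    (hl : f v - op l • v ∈ N) : Inv f (N ⊔ Submodule.span ℍ[ℝ]ᵐᵒᵖ {v}) := by
  intro x hx
  obtain ⟨a, ha, b, hb, rfl⟩ := Submodule.mem_sup.mp hx
  obtain ⟨q, rfl⟩ := Submodule.mem_span_singleton.mp hb
  rw [map_add, map_smul]
  have h3 : f v = op l • v + (f v - op l • v) := by abel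
  rw [h3]
  refine add_mem ((le_sup_left : N ≤ _) (hN a ha)) (Submodule.smul_mem _ _ (add_mem ?_ ?_))
  · exact (le_sup_right : _ ≤ N ⊔ Submodule.span ℍ[ℝ]ᵐᵒᵖ {v})
      (Submodule.smul_mem _ _ (Submodule.mem_span_singleton_self v))
  · exact (le_sup_left : N ≤ _) hl

theorem neutral_sup {N : Submodule ℍ[ℝ]ᵐᵒᵖ V} (hN0 : Neutral G N) {v : V}
    (hv : v ∈ hG.perp N) (hvv : G v v = 0) :
    Neutral G (N ⊔ Submodule.span ℍ[ℝ]ᵐᵒᵖ {v}) := by
  intro x hx y hy
  obtain ⟨a, ha, b, hb, rfl⟩ := Submodule.mem_sup.mp hx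
  obtain ⟨q, rfl⟩ := Submodule.mem_span_singleton.mp hb
  obtain ⟨q, rfl⟩ := op_surjective q
  obtain ⟨a', ha', b', hb', rfl⟩ := Submodule.mem_sup.mp hy
  obtain ⟨q', rfl⟩ := Submodule.mem_span_singleton.mp hb'
  obtain ⟨q', rfl⟩ := op_surjective q'
  rw [hG.add_right, hG.add_left, hG.add_left, hG.smul_left, hG.smul_right a, hG.smul_right,
    hG.smul_left, hN0 a ha a' ha', hv a ha, hvv, hG.swap (hv a' ha')]
  simp

include hG in
/-- **Q1**, abstract form. -/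
theorem extend_neutral (hf : ∀ x y, G (f x) y = -G x (f y)) {N : Submodule ℍ[ℝ]ᵐᵒᵖ V}
    (hN : Inv f N) (hN0 : Neutral G N) :
    ∃ L : Submodule ℍ[ℝ]ᵐᵒᵖ V, N ≤ L ∧ Inv f L ∧ MaxNonneg G L := by
  have hfin : FiniteDimensional ℍ[ℝ]ᵐᵒᵖ V := finV
  -- a maximal invariant neutral subspace
  obtain ⟨M, ⟨hNM, hM, hM0⟩, hmax⟩ := WellFounded.has_min
    (wellFounded_gt : WellFounded ((· > ·) : Submodule ℍ[ℝ]ᵐᵒᵖ V → Submodule ℍ[ℝ]ᵐᵒᵖ V → Prop))
    {M | N ≤ M ∧ Inv f M ∧ Neutral G M} ⟨N, le_rfl, hN, hN0⟩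
  obtain ⟨L, h1, -, h3, h4⟩ := exists_max hG f hf hM hM0 (by
    intro v hv l hl hvv
    by_contra hvM
    have hlt : M < M ⊔ Submodule.span ℍ[ℝ]ᵐᵒᵖ {v} := by
      refine lt_of_le_of_ne le_sup_left fun h => hvM ?_
      rw [h]
      exact (le_sup_right : _ ≤ M ⊔ Submodule.span ℍ[ℝ]ᵐᵒᵖ {v})
        (Submodule.mem_span_singleton_self v)
    exact hmax _ ⟨hNM.trans le_sup_left, inv_sup f hM hl, neutral_sup hG hM0 hv hvv⟩ hlt)
  exact ⟨L, hNM.trans h1, h3, h4⟩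

/-- The real part of the form. -/
noncomputable def reForm : LinearMap.BilinForm ℝ V :=
  LinearMap.mk₂ ℝ (fun x y => (G x y).re)
    (fun x y z => by rw [hG.add_left]; rfl)
    (fun c x y => by
      rw [real_smul, hG.smul_left, Quaternion.star_coe, Quaternion.coe_mul_eq_smul]; rfl)
    (fun x y z => by rw [hG.add_right]; rfl)
    (fun c x y => by
      rw [real_smul, hG.smul_right, Quaternion.mul_coe_eq_smul]; rfl)

theorem reForm_apply (x y : V) : reForm hG x y = (G x y).re := rfl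

theorem reForm_orth (N : Submodule ℍ[ℝ]ᵐᵒᵖ V) :
    (reForm hG).orthogonal (N.restrictScalars ℝ) = (hG.perp N).restrictScalars ℝ := by
  ext x
  rw [LinearMap.BilinForm.mem_orthogonal_iff]
  constructor
  · intro h n hn
    have h1 := h (op (G n x) • n) (N.smul_mem _ hn)
    rw [reForm_apply, hG.smul_left, Quaternion.star_mul_self] at h1
    exact Quaternion.normSq_eq_zero.mp (by simpa using h1)
  · intro h n hn
    rw [reForm_apply, h n hn]
    rfl

/-- The double orthogonal. -/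
theorem perp_perp {N : Submodule ℍ[ℝ]ᵐᵒᵖ V} (hrad : ∀ x, (∀ y, G x y = 0) → x ∈ N) :
    hG.perp (hG.perp N) ≤ N := by
  have hrefl : (reForm hG).IsRefl := by
    intro x y h
    rw [reForm_apply] at h ⊢
    rw [hG.symm x y]
    simpa using h
  have hd : ∀ M : Submodule ℍ[ℝ]ᵐᵒᵖ V, N ≤ M ∨ hG.perp N ≤ M → (∀ x, (∀ y, G x y = 0) → x ∈ M) →
      Module.finrank ℝ (M.restrictScalars ℝ) + Module.finrank ℝ ((hG.perp M).restrictScalars ℝ) =
      Module.finrank ℝ V + Module.finrank ℝ ((reForm hG).orthogonal ⊤) := by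
    intro M _ hM
    have h1 := LinearMap.BilinForm.finrank_add_finrank_orthogonal hrefl (M.restrictScalars ℝ)
    rw [reForm_orth] at h1
    have h2 : M.restrictScalars ℝ ⊓ (reForm hG).orthogonal ⊤ = (reForm hG).orthogonal ⊤ := by
      rw [inf_eq_right]
      intro x hx
      refine hM x fun y => hG.swap ?_
      have h3 := reForm_orth hG ⊤
      have h4 : x ∈ (hG.perp ⊤).restrictScalars ℝ := by
        rw [← h3]
        exact hx
      exact h4 y trivial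
    rw [h2] at h1
    exact h1
  have h1 := hd N (Or.inl le_rfl) hrad
  have h2 := hd (hG.perp N) (Or.inr le_rfl) (fun x hx n hn => hG.swap (hx n))
  have h3 : N.restrictScalars ℝ = (hG.perp (hG.perp N)).restrictScalars ℝ := by
    refine Submodule.eq_of_le_of_finrank_eq ?_ ?_
    · intro x hx y hy
      exact hG.swap (hy x hx)
    · omega
  intro x hx
  have h4 : x ∈ (hG.perp (hG.perp N)).restrictScalars ℝ := hx
  rw [← h3] at h4
  exact h4

/-- The eigenvalues with nonzero real part of the restriction of `f` to `L`. -/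
def Eigs (f : V → V) (L : Submodule ℍ[ℝ]ᵐᵒᵖ V) : Set ℍ[ℝ] :=
  {l | l.re ≠ 0 ∧ ∃ x ∈ L, x ≠ 0 ∧ f x = op l • x}

/-- The first three conditions on a c-set. -/
def PreCSet (f : V → V) (S : Set ℍ[ℝ]) : Prop :=
  S ⊆ Eigs f ⊤ ∧ (∀ l ∈ S, ∀ q : ℍ[ℝ], q ≠ 0 → q⁻¹ * l * q ∈ S) ∧ ∀ l ∈ S, -l ∉ S

/-- c-sets. -/
def IsCSet (f : V → V) (S : Set ℍ[ℝ]) : Prop :=
  PreCSet f S ∧ ∀ T : Set ℍ[ℝ], PreCSet f T → S ⊆ T → T = S

theorem Eigs.sim {L : Submodule ℍ[ℝ]ᵐᵒᵖ V} {l l' : ℍ[ℝ]} (h : l ∈ Eigs f L) (h' : Sim l l') :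
    l' ∈ Eigs f L := by
  have hre := h'.re
  obtain ⟨q, hq, rfl⟩ := h'
  obtain ⟨h1, x, hx, hx0, hxl⟩ := h
  refine ⟨by rw [hre]; exact h1, op q • x, L.smul_mem _ hx, ?_, ?_⟩
  · exact (smul_ne_zero_iff_right ((op_ne_zero_iff q).mpr hq)).mpr hx0
  · rw [map_smul, hxl, smul_smul, smul_smul, ← op_mul, ← op_mul]
    congr 2
    rw [← mul_assoc, ← mul_assoc, mul_inv_cancel₀ hq, one_mul]

theorem Sim.trans {a b c : ℍ[ℝ]} (h : Sim a b) (h' : Sim b c) : Sim a c := by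
  obtain ⟨q, hq, rfl⟩ := h
  obtain ⟨p, hp, rfl⟩ := h'
  refine ⟨q * p, mul_ne_zero hq hp, ?_⟩
  rw [mul_inv_rev]
  simp only [mul_assoc]

/-- Eigenvalues of a one-step extension. -/
theorem eigs_sup {M : Submodule ℍ[ℝ]ᵐᵒᵖ V} (hM : Inv f M) {v : V} (hvM : v ∉ M) {l : ℍ[ℝ]}
    (hl : f v - op l • v ∈ M) {m : ℍ[ℝ]} (hm : m ∈ Eigs f (M ⊔ Submodule.span ℍ[ℝ]ᵐᵒᵖ {v})) :
    m ∈ Eigs f M ∨ Sim l m := by
  obtain ⟨hre, x, hx, hx0, hxm⟩ := hm
  obtain ⟨a, ha, b, hb, rfl⟩ := Submodule.mem_sup.mp hx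
  obtain ⟨q, rfl⟩ := Submodule.mem_span_singleton.mp hb
  obtain ⟨q, rfl⟩ := op_surjective q
  by_cases hq : q = 0
  · subst hq
    rw [op_zero, zero_smul, add_zero] at hxm hx0
    exact Or.inl ⟨hre, a, ha, hx0, hxm⟩
  · right
    have h1 : op (l * q - q * m) • v ∈ M := by
      have h3 : f v = op l • v + (f v - op l • v) := by abel
      rw [map_add, map_smul, h3, smul_add, smul_add, smul_smul, smul_smul, ← op_mul, ← op_mul] at hxm
      have h4 : op (l * q - q * m) • v = op m • a - f a - op q • (f v - op l • v) := by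
        rw [op_sub, sub_smul]
        rw [← sub_eq_zero] at hxm ⊢
        rw [← hxm]
        abel
      rw [h4]
      exact M.sub_mem (M.sub_mem (M.smul_mem _ ha) (hM a ha)) (M.smul_mem _ hl)
    have h2 : l * q - q * m = 0 := by
      by_contra hne
      apply hvM
      have h5 : v = op (l * q - q * m)⁻¹ • (op (l * q - q * m) • v) := by
        rw [smul_smul, ← op_mul, mul_inv_cancel₀ hne, op_one, one_smul]
      rw [h5]
      exact M.smul_mem _ h1
    refine ⟨q, hq, ?_⟩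
    rw [mul_assoc, sub_eq_zero.mp h2, ← mul_assoc, inv_mul_cancel₀ hq, one_mul]

include hf in
theorem chi_adj (hG : IsHerm G) (l : ℍ[ℝ]) (x y : V) :
    G (chi f l x) y = G x (chi f (-l) y) := by
  rw [chi_apply, chi_apply, Quaternion.normSq_neg, real_smul, real_smul, real_smul, real_smul,
    hG.add_left, hG.sub_left, hG.add_right, hG.sub_right, hG.smul_left, hG.smul_left,
    hG.smul_right, hG.smul_right, hf, hf, hf, Quaternion.star_coe, Quaternion.star_coe]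
  have e1 : ((2 * (-l).re : ℝ) : ℍ[ℝ]) = -((2 * l.re : ℝ) : ℍ[ℝ]) := by
    rw [← Quaternion.coe_neg]
    congr 1
    simp
  rw [e1, Quaternion.coe_commutes (normSq l), mul_neg, mul_neg, Quaternion.coe_commutes]
  simp

include hG hf in
theorem re_zero {M : Submodule ℍ[ℝ]ᵐᵒᵖ V} {v : V} (hv : v ∈ hG.perp M) {l : ℍ[ℝ]}
    (hl : f v - op l • v ∈ M) (hvv : G v v ≠ 0) : l.re = 0 := by
  have h3 : f v = op l • v + (f v - op l • v) := by abel
  have h1 : G v (f v) = G v v * l := by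
    rw [h3, hG.add_right, hG.smul_right, hG.swap (hv _ hl), add_zero]
  have h2 : G (f v) v = star l * G v v := by
    rw [h3, hG.add_left, hG.smul_left, hv _ hl, add_zero]
  have h4 := hf v v
  rw [h1, h2, hG.self v] at h4
  have e := congrArg QuaternionAlgebra.re h4
  simp at e
  have h5 : (G v v).re ≠ 0 := by
    intro h
    apply hvv
    rw [hG.self v, h]; simp
  have h6 : l.re * (G v v).re = 0 := by linarith
  exact (mul_eq_zero.mp h6).resolve_right h5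

theorem cset_mem {S : Set ℍ[ℝ]} (hS : IsCSet f S) {l : ℍ[ℝ]} (hl : l ∈ Eigs f ⊤) (h : -l ∉ S) :
    l ∈ S := by
  obtain ⟨⟨h1, h2, h3⟩, hmax⟩ := hS
  have hre := hl.1
  have hcl : ∀ {a b : ℍ[ℝ]}, a ∈ S → Sim a b → b ∈ S := by
    rintro a b ha ⟨q, hq, rfl⟩
    exact h2 a ha q hq
  have hT : PreCSet f (S ∪ {m | Sim l m}) := by
    refine ⟨?_, ?_, ?_⟩
    · rintro m (hm | hm)
      · exact h1 hm
      · exact Eigs.sim f hl hm
    · rintro m (hm | hm) q hq
      · exact Or.inl (h2 m hm q hq)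
      · exact Or.inr (Sim.trans hm ⟨q, hq, rfl⟩)
    · rintro m (hm | hm) (hm' | hm')
      · exact h3 m hm hm'
      · apply h
        have := hm'.neg
        rw [neg_neg] at this
        exact hcl hm this.symm
      · exact h (hcl hm' hm.neg.symm)
      · have e1 := hm.re
        have e2 := hm'.re
        rw [Quaternion.re_neg] at e2
        apply hre
        linarith
  rw [← hmax _ hT Set.subset_union_left]
  exact Or.inr (Sim.refl l)

include hG in
/-- **Q2**, abstract form. -/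
theorem extend_cset (hf : ∀ x y, G (f x) y = -G x (f y))
    (hrad : ∀ x, (∀ y, G x y = 0) → f x = 0) {N : Submodule ℍ[ℝ]ᵐᵒᵖ V}
    (hN : Inv f N) (hN0 : Neutral G N) {S : Set ℍ[ℝ]} (hS : IsCSet f S) (hNS : Eigs f N ⊆ S) :
    ∃ L : Submodule ℍ[ℝ]ᵐᵒᵖ V, N ≤ L ∧ Inv f L ∧ MaxNonneg G L ∧ Eigs f L = S := by
  have hfin : FiniteDimensional ℍ[ℝ]ᵐᵒᵖ V := finV
  obtain ⟨M, ⟨hNM, hM, hM0, hMS⟩, hmax⟩ := WellFounded.has_min
    (wellFounded_gt : WellFounded ((· > ·) : Submodule ℍ[ℝ]ᵐᵒᵖ V → Submodule ℍ[ℝ]ᵐᵒᵖ V → Prop))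
    {M | N ≤ M ∧ Inv f M ∧ Neutral G M ∧ Eigs f M ⊆ S} ⟨N, le_rfl, hN, hN0, hNS⟩
  have hcl : ∀ {a b : ℍ[ℝ]}, a ∈ S → Sim a b → b ∈ S := by
    rintro a b ha ⟨q, hq, rfl⟩
    exact hS.1.2.1 a ha q hq
  -- step B
  have stepB : ∀ v ∈ hG.perp M, v ∉ M → ∀ l : ℍ[ℝ], f v - op l • v ∈ M → G v v = 0 →
      l.re ≠ 0 ∧ l ∉ S := by
    intro v hv hvM l hl hvv
    by_contra hcon
    have hlt : M < M ⊔ Submodule.span ℍ[ℝ]ᵐᵒᵖ {v} := by
      refine lt_of_le_of_ne le_sup_left fun h => hvM ?_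
      rw [h]
      exact (le_sup_right : _ ≤ M ⊔ Submodule.span ℍ[ℝ]ᵐᵒᵖ {v})
        (Submodule.mem_span_singleton_self v)
    refine hmax _ ⟨hNM.trans le_sup_left, inv_sup f hM hl, neutral_sup hG hM0 hv hvv, ?_⟩ hlt
    intro m hm
    rcases eigs_sup f hM hvM hl hm with h | h
    · exact hMS h
    · by_cases hre : l.re = 0
      · exact absurd (h.re.trans hre) hm.1
      · have hlS : l ∈ S := by
          by_contra hlS
          exact hcon ⟨hre, hlS⟩
        exact hcl hlS h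
  -- the radical is contained in `M`
  have hradM : ∀ x, (∀ y, G x y = 0) → x ∈ M := by
    intro x hx
    by_contra hxM
    have h1 := stepB x (fun n _ => hG.swap (hx n)) hxM 0 (by
      rw [hrad x hx, op_zero, zero_smul, sub_zero]; exact M.zero_mem) (hx x)
    exact h1.1 rfl
  -- step D
  have stepD : ∀ v ∈ hG.perp M, v ∉ M → ∀ l : ℍ[ℝ], f v - op l • v ∈ M → l.re = 0 := by
    intro v hv hvM l hl
    by_contra hre
    have hvv : G v v = 0 := by
      by_contra hvv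
      exact hre (re_zero hG f hf hv hl hvv)
    obtain ⟨-, hlS⟩ := stepB v hv hvM l hl hvv
    -- `l` is an eigenvalue of `f`
    have hltop : l ∈ Eigs f ⊤ := by
      have hU := inv_sup f hM hl
      have hvU : v ∈ M ⊔ Submodule.span ℍ[ℝ]ᵐᵒᵖ {v} :=
        (le_sup_right : _ ≤ M ⊔ Submodule.span ℍ[ℝ]ᵐᵒᵖ {v}) (Submodule.mem_span_singleton_self v)
      have hchi : ∀ x ∈ M ⊔ Submodule.span ℍ[ℝ]ᵐᵒᵖ {v}, chi f l x ∈ M := by
        intro x hx
        obtain ⟨a, ha, b, hb, rfl⟩ := Submodule.mem_sup.mp hx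
        obtain ⟨q, rfl⟩ := Submodule.mem_span_singleton.mp hb
        rw [map_add, map_smul]
        exact M.add_mem (chi_mem f l hM a ha) (M.smul_mem _ (chi_of_eig f l hM hl))
      have hex : ∃ z ∈ M ⊔ Submodule.span ℍ[ℝ]ᵐᵒᵖ {v}, z ∉ (⊥ : Submodule ℍ[ℝ]ᵐᵒᵖ V) ∧
          chi f l z ∈ (⊥ : Submodule ℍ[ℝ]ᵐᵒᵖ V) := by
        by_contra hno
        push Not at hno
        obtain ⟨z, hz, hz'⟩ := rel_surj (chi f l) (N := ⊥)
          (U := M ⊔ Submodule.span ℍ[ℝ]ᵐᵒᵖ {v})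
          (by intro x hx; rw [(Submodule.mem_bot _).mp hx, map_zero]; exact Submodule.zero_mem _)
          (chi_mem f l hU) (by
            intro z hz hz0
            by_contra hne
            exact hno z hz hne hz0) v hvU
        rw [Submodule.mem_bot, sub_eq_zero] at hz'
        apply hvM
        rw [hz']
        exact hchi z hz
      obtain ⟨z, hzU, hz0, hz⟩ := hex
      obtain ⟨v', -, hv'0, l', hsim, hl'⟩ := eig_of_chi f l hU hzU hz0 hz
      refine Eigs.sim f (l := l') ⟨by rw [hsim.re]; exact hre, v', trivial, hv'0, ?_⟩ hsim.symm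
      rw [Submodule.mem_bot, sub_eq_zero] at hl'
      exact hl'
    have hneg : -l ∈ S := by
      by_contra h
      exact hlS (cset_mem f hS hltop h)
    have hex : ∃ z ∈ hG.perp M, z ∉ M ∧ chi f (-l) z ∈ M := by
      by_contra hno
      push Not at hno
      apply hvM
      refine perp_perp hG hradM ?_
      intro y hy
      obtain ⟨z, hz, hyz⟩ := rel_surj (chi f (-l)) (N := M) (U := hG.perp M)
        (chi_mem f (-l) hM) (chi_mem f (-l) (inv_perp hG f hf hM)) (by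
          intro z hz hzM
          by_contra hne
          exact hno z hz hne hzM) y hy
      apply hG.swap
      have h1 : y = chi f (-l) z + (y - chi f (-l) z) := by abel
      rw [h1, hG.add_right, ← chi_adj f hf hG, hz _ (chi_of_eig f l hM hl), zero_add]
      exact hG.swap (hv _ hyz)
    obtain ⟨z, hzU, hz0, hz⟩ := hex
    obtain ⟨v', hv'U, hv'M, l', hsim, hl'⟩ := eig_of_chi f (-l) (inv_perp hG f hf hM) hzU hz0 hz
    have hre' : l'.re ≠ 0 := by
      rw [hsim.re, Quaternion.re_neg]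
      exact neg_ne_zero.mpr hre
    have hvv' : G v' v' = 0 := by
      by_contra hvv'
      exact hre' (re_zero hG f hf hv'U hl' hvv')
    exact (stepB v' hv'U hv'M l' hl' hvv').2 (hcl hneg hsim)
  obtain ⟨L, hML, hLp, hL, hLmax⟩ := exists_max hG f hf hM hM0 (by
    intro v hv l hl hvv
    by_contra hvM
    exact (stepB v hv hvM l hl hvv).1 (stepD v hv hvM l hl))
  refine ⟨L, hNM.trans hML, hL, hLmax, ?_⟩
  apply Set.Subset.antisymm
  · rintro m ⟨hre, x, hx, hx0, hxm⟩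
    have hxM : x ∈ M := by
      by_contra hxM
      exact hre (stepD x (hLp hx) hxM m (by rw [hxm, sub_self]; exact M.zero_mem))
    exact hMS ⟨hre, x, hxM, hx0, hxm⟩
  · intro s hs
    obtain ⟨hre, x, -, hx0, hxs⟩ := hS.1.1 hs
    have hsM : s ∈ Eigs f M := by
      by_contra hsM
      have hnegM : -s ∉ Eigs f M := fun h => hS.1.2.2 s hs (hMS h)
      have hbot : ∀ x ∈ (⊥ : Submodule ℍ[ℝ]ᵐᵒᵖ V), f x ∈ (⊥ : Submodule ℍ[ℝ]ᵐᵒᵖ V) := by
        intro x hx; rw [(Submodule.mem_bot _).mp hx, map_zero]; exact Submodule.zero_mem _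
      have hsurj := rel_surj (chi f (-s)) (N := ⊥) (U := M) (chi_mem f (-s) hbot)
        (chi_mem f (-s) hM) (by
          intro z hz hz0
          by_contra hne
          obtain ⟨v', hv'M, hv'0, l', hsim, hl'⟩ := eig_of_chi f (-s) hM hz hne hz0
          apply hnegM
          refine Eigs.sim f (l := l') ⟨?_, v', hv'M, hv'0, ?_⟩ hsim.symm
          · rw [hsim.re, Quaternion.re_neg]
            exact neg_ne_zero.mpr hre
          · rw [Submodule.mem_bot, sub_eq_zero] at hl'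
            exact hl')
      have hxp : x ∈ hG.perp M := by
        intro n hn
        obtain ⟨z, hz, hnz⟩ := hsurj n hn
        rw [Submodule.mem_bot, sub_eq_zero] at hnz
        apply hG.swap
        rw [hnz, ← chi_adj f hf hG]
        have h1 : chi f s x ∈ (⊥ : Submodule ℍ[ℝ]ᵐᵒᵖ V) :=
          chi_of_eig f s hbot (by rw [hxs, sub_self]; exact Submodule.zero_mem _)
        rw [(Submodule.mem_bot _).mp h1]
        exact hG.swap (hG.zero_right z)
      have hxM : x ∉ M := fun h => hsM ⟨hre, x, h, hx0, hxs⟩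
      exact hre (stepD x hxp hxM s (by rw [hxs, sub_self]; exact M.zero_mem))
    obtain ⟨-, y, hy, hy0, hys⟩ := hsM
    exact ⟨hre, y, hML hy, hy0, hys⟩

end core

end Pool.Agent.V1117.QuatForm
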