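import Pool.Agent.V1117.QuatForm

/-!
# Extending `HA`-neutral invariant subspaces for quaternion Hamiltonian matrices
-/

set_option autoImplicit false

namespace Pool.Agent.V1117.QuatHam

open Quaternion MulOpposite Matrix Pool.Agent.V1117.QuatForm

section defs

variable {n : ℕ}

/-- The form `x^* G y`. -/
noncomputable def form (G : Matrix (Fin n) (Fin n) ℍ[ℝ]) (x y : Fin n → ℍ[ℝ]) : ℍ[ℝ] :=
  star x ⬝ᵥ (G *ᵥ y)

/-- Right subspaces of `ℍ^n`. -/
abbrev Subsp (n : ℕ) := Submodule ℍ[ℝ]ᵐᵒᵖ (Fin n → ℍ[ℝ])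

/-- Invariant subspaces. -/
def IsInv (A : Matrix (Fin n) (Fin n) ℍ[ℝ]) (L : Subsp n) : Prop := ∀ x ∈ L, A *ᵥ x ∈ L

/-- `G`-neutral subspaces. -/
def IsNeutral (G : Matrix (Fin n) (Fin n) ℍ[ℝ]) (L : Subsp n) : Prop :=
  ∀ x ∈ L, ∀ y ∈ L, form G x y = 0

/-- `G`-nonnegative subspaces: the values `x^* G x` are nonnegative reals. -/
def IsNonneg (G : Matrix (Fin n) (Fin n) ℍ[ℝ]) (L : Subsp n) : Prop :=
  ∀ x ∈ L, ∃ r : ℝ, 0 ≤ r ∧ form G x x = r

/-- `G`-nonpositive subspaces: the values `x^* G x` are nonpositive reals. -/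
def IsNonpos (G : Matrix (Fin n) (Fin n) ℍ[ℝ]) (L : Subsp n) : Prop :=
  ∀ x ∈ L, ∃ r : ℝ, r ≤ 0 ∧ form G x x = r

/-- Maximal subspaces with a property: not properly contained in another one. -/
def IsMax (P : Subsp n → Prop) (L : Subsp n) : Prop := P L ∧ ∀ L', P L' → L ≤ L' → L' = L

/-- Eigenvalues with nonzero real part of the restriction of `A` to `L`. -/
def eigs (A : Matrix (Fin n) (Fin n) ℍ[ℝ]) (L : Subsp n) : Set ℍ[ℝ] :=
  {l | l.re ≠ 0 ∧ ∃ x ∈ L, x ≠ 0 ∧ A *ᵥ x = fun i => x i * l}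

/-- The first three conditions on a c-set. -/
def IsPreCSet (A : Matrix (Fin n) (Fin n) ℍ[ℝ]) (S : Set ℍ[ℝ]) : Prop :=
  S ⊆ eigs A ⊤ ∧ (∀ l ∈ S, ∀ q : ℍ[ℝ], q ≠ 0 → q⁻¹ * l * q ∈ S) ∧ ∀ l ∈ S, -l ∉ S

/-- c-sets. -/
def IsC (A : Matrix (Fin n) (Fin n) ℍ[ℝ]) (S : Set ℍ[ℝ]) : Prop :=
  IsPreCSet A S ∧ ∀ T, IsPreCSet A T → S ⊆ T → T = S

/-- The standing assumptions: `H` is invertible and skewhermitian, `A` is `H`-Hamiltonian, `N` is
`A`-invariant and `HA`-neutral. -/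
structure Data (H A : Matrix (Fin n) (Fin n) ℍ[ℝ]) (N : Subsp n) : Prop where
  unit : IsUnit H
  skew : Hᴴ = -H
  ham : H * A = -(Aᴴ * H)
  inv : IsInv A N
  neutral : IsNeutral (H * A) N

end defs

variable {n : ℕ}

theorem mulVec_op_smul (A : Matrix (Fin n) (Fin n) ℍ[ℝ]) (q : ℍ[ℝ]) (x : Fin n → ℍ[ℝ]) :
    A *ᵥ (op q • x) = op q • (A *ᵥ x) := by
  ext1 i
  simp only [Matrix.mulVec, dotProduct, Pi.smul_apply, op_smul_eq_mul, Finset.sum_mul, mul_assoc]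

/-- Multiplication by a matrix, as a right linear map. -/
def toLin (A : Matrix (Fin n) (Fin n) ℍ[ℝ]) : (Fin n → ℍ[ℝ]) →ₗ[ℍ[ℝ]ᵐᵒᵖ] (Fin n → ℍ[ℝ]) where
  toFun x := A *ᵥ x
  map_add' x y := Matrix.mulVec_add A x y
  map_smul' q x := mulVec_op_smul A (unop q) x

theorem form_isHerm {G : Matrix (Fin n) (Fin n) ℍ[ℝ]} (hG : Gᴴ = G) : IsHerm (form G) where
  add_right x y z := by rw [form, Matrix.mulVec_add, dotProduct_add]; rfl
  smul_right x y q := by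
    rw [form, form, mulVec_op_smul]
    simp only [dotProduct, Pi.smul_apply, op_smul_eq_mul, Finset.sum_mul, mul_assoc]
  symm x y := by
    unfold form
    rw [← Matrix.star_dotProduct_star, star_star, Matrix.star_mulVec, hG, Matrix.dotProduct_mulVec]

theorem herm {H A : Matrix (Fin n) (Fin n) ℍ[ℝ]} (hH : Hᴴ = -H) (hA : H * A = -(Aᴴ * H)) :
    (H * A)ᴴ = H * A := by
  rw [Matrix.conjTranspose_mul, hH, hA, Matrix.mul_neg]

theorem skew {H A : Matrix (Fin n) (Fin n) ℍ[ℝ]} (hA : H * A = -(Aᴴ * H)) (x y : Fin n → ℍ[ℝ]) :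
    form (H * A) (A *ᵥ x) y = -form (H * A) x (A *ᵥ y) := by
  unfold form
  rw [Matrix.star_mulVec, ← Matrix.dotProduct_mulVec, Matrix.mulVec_mulVec, ← Matrix.mul_assoc,
    Matrix.mulVec_mulVec]
  have : Aᴴ * H = -(H * A) := by rw [hA, neg_neg]
  rw [this, Matrix.neg_mul, Matrix.neg_mulVec, dotProduct_neg]

theorem nonneg_iff {G : Matrix (Fin n) (Fin n) ℍ[ℝ]} (hG : Gᴴ = G) (L : Subsp n) :
    IsNonneg G L ↔ Nonneg (form G) L := by
  constructor
  · intro h x hx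
    obtain ⟨r, hr, hxr⟩ := h x hx
    rw [hxr]
    simpa using hr
  · intro h x hx
    exact ⟨_, h x hx, (form_isHerm hG).self x⟩

theorem nonpos_iff {G : Matrix (Fin n) (Fin n) ℍ[ℝ]} (hG : Gᴴ = G) (L : Subsp n) :
    IsNonpos G L ↔ Nonneg (fun x y => -form G x y) L := by
  constructor
  · intro h x hx
    obtain ⟨r, hr, hxr⟩ := h x hx
    change 0 ≤ (-form G x x).re
    rw [hxr]
    simpa using hr
  · intro h x hx
    refine ⟨(form G x x).re, ?_, (form_isHerm hG).self x⟩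
    have h1 : 0 ≤ (-form G x x).re := h x hx
    rw [Quaternion.re_neg] at h1
    linarith

theorem max_nonneg {G : Matrix (Fin n) (Fin n) ℍ[ℝ]} (hG : Gᴴ = G) {L : Subsp n}
    (h : MaxNonneg (form G) L) : IsMax (IsNonneg G) L :=
  ⟨(nonneg_iff hG L).mpr h.1, fun L' h' hle => h.2 L' hle ((nonneg_iff hG L').mp h')⟩

theorem max_nonpos {G : Matrix (Fin n) (Fin n) ℍ[ℝ]} (hG : Gᴴ = G) {L : Subsp n}
    (h : MaxNonneg (fun x y => -form G x y) L) : IsMax (IsNonpos G) L :=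
  ⟨(nonpos_iff hG L).mpr h.1, fun L' h' hle => h.2 L' hle ((nonpos_iff hG L').mp h')⟩

theorem neutral_neg {G : Matrix (Fin n) (Fin n) ℍ[ℝ]} {N : Subsp n} (h : IsNeutral G N) :
    Neutral (fun x y => -form G x y) N := fun x hx y hy => by
  change -form G x y = 0
  rw [h x hx y hy, neg_zero]

/-- The radical of the form `HA` is the kernel of `A`. -/
theorem rad {H A : Matrix (Fin n) (Fin n) ℍ[ℝ]} (hH : IsUnit H) (hG : (H * A)ᴴ = H * A)
    {x : Fin n → ℍ[ℝ]} (hx : ∀ y, form (H * A) x y = 0) : A *ᵥ x = 0 := by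
  have h1 : (H * A) *ᵥ x = 0 := by
    ext1 i
    have h2 := (form_isHerm hG).swap (hx (Pi.single i 1))
    unfold form at h2
    have h3 : (star (Pi.single i 1 : Fin n → ℍ[ℝ])) = Pi.single i 1 := by
      ext1 j
      by_cases hj : j = i
      · subst hj; simp
      · simp [hj]
    rw [h3, single_one_dotProduct] at h2
    exact h2
  obtain ⟨u, rfl⟩ := hH
  have h4 := congrArg (fun z => (u⁻¹).val *ᵥ z) h1
  simp only [Matrix.mulVec_mulVec, ← Matrix.mul_assoc, Units.inv_mul, Matrix.one_mul,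
    Matrix.mulVec_zero] at h4
  exact h4

end Pool.Agent.V1117.QuatHam
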