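import Pool.Agent.V1117.QuatHam
import Pool.Agent.Results.MP_dceaed_al.BoundedRange

/-!
# Quaternion matrices and nonstandard involutions: the form `x_φ HA y`
-/

set_option autoImplicit false

namespace Pool.Agent.V1117.QuatPhi

open Quaternion MulOpposite Matrix Pool.Agent.V1117.QuatForm
open Pool.Agent.V1117.QuatHam (Subsp IsMax toLin IsInv eigs IsC mulVec_op_smul)
open Pool.Agent.Results.MP_dceaed_al.BoundedRange (IsNonstandard exists_equiv φ_one φ_re sq_eq φ₀ qi)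

section defs

variable {n : ℕ}

/-- `x_φ G y`. -/
noncomputable def form (φ : ℍ[ℝ] →ₗ[ℝ] ℍ[ℝ]) (G : Matrix (Fin n) (Fin n) ℍ[ℝ])
    (x y : Fin n → ℍ[ℝ]) : ℍ[ℝ] := (fun i => φ (x i)) ⬝ᵥ (G *ᵥ y)

/-- `(G, φ)`-neutral subspaces. -/
def IsNeutral (φ : ℍ[ℝ] →ₗ[ℝ] ℍ[ℝ]) (G : Matrix (Fin n) (Fin n) ℍ[ℝ]) (L : Subsp n) : Prop :=
  ∀ x ∈ L, ∀ y ∈ L, form φ G x y = 0

/-- `(G, φ)`-nonnegative subspaces: the values `β⁻¹ x_φ G x` are nonnegative reals. -/
def IsNonneg (φ : ℍ[ℝ] →ₗ[ℝ] ℍ[ℝ]) (β : ℍ[ℝ]) (G : Matrix (Fin n) (Fin n) ℍ[ℝ]) (L : Subsp n) :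
    Prop := ∀ x ∈ L, ∃ r : ℝ, 0 ≤ r ∧ β⁻¹ * form φ G x x = r

/-- `(G, φ)`-nonpositive subspaces: the values `β⁻¹ x_φ G x` are nonpositive reals. -/
def IsNonpos (φ : ℍ[ℝ] →ₗ[ℝ] ℍ[ℝ]) (β : ℍ[ℝ]) (G : Matrix (Fin n) (Fin n) ℍ[ℝ]) (L : Subsp n) :
    Prop := ∀ x ∈ L, ∃ r : ℝ, r ≤ 0 ∧ β⁻¹ * form φ G x x = r

/-- The standing assumptions: `φ` is a nonstandard involution, `φ β = -β`, `|β| = 1`, `H` is
invertible and `φ`-hermitian, `A` is `(H, φ)`-skewsymmetric, `N` is `A`-invariant and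
`(HA, φ)`-neutral. -/
structure Data (φ : ℍ[ℝ] →ₗ[ℝ] ℍ[ℝ]) (β : ℍ[ℝ]) (H A : Matrix (Fin n) (Fin n) ℍ[ℝ])
    (N : Subsp n) : Prop where
  nonstandard : IsNonstandard φ
  beta : φ β = -β
  norm_beta : ‖β‖ = 1
  unit : IsUnit H
  herm : Hᵀ.map φ = H
  skew : H * A = -(Aᵀ.map φ * H)
  inv : IsInv A N
  neutral : IsNeutral φ (H * A) N

end defs

variable {n : ℕ} {φ : ℍ[ℝ] →ₗ[ℝ] ℍ[ℝ]} {β : ℍ[ℝ]}

theorem beta_sq (hφ : IsNonstandard φ) (hβ : φ β = -β) (hn : ‖β‖ = 1) : β * β = -1 := by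
  have h1 := φ_re hφ β
  rw [hβ, Quaternion.re_neg] at h1
  have h2 : β.re = 0 := by linarith
  rw [sq_eq, h2, hn]
  simp

theorem star_equiv (τ : ℍ[ℝ] ≃ₐ[ℝ] ℍ[ℝ]) (x : ℍ[ℝ]) : τ (star x) = star (τ x) := by
  -- `star x = 2 re x - x`, and `τ` preserves the real part
  have hre : ∀ y : ℍ[ℝ], (τ y).re = y.re := by
    have pure : ∀ y : ℍ[ℝ], y.re = 0 → (τ y).re = 0 := by
      intro y hy
      have h1 := sq_eq y
      rw [hy, mul_zero, zero_smul, zero_sub] at h1
      have h2 : τ y * τ y = -((‖y‖ * ‖y‖) • (1 : ℍ[ℝ])) := by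
        rw [← map_mul, h1, map_neg, map_smul, map_one]
      have e1 := congrArg QuaternionAlgebra.re h2
      have e2 := congrArg QuaternionAlgebra.imI h2
      have e3 := congrArg QuaternionAlgebra.imJ h2
      have e4 := congrArg QuaternionAlgebra.imK h2
      simp at e1 e2 e3 e4
      by_contra hne
      have f2 : (τ y).imI = 0 := by
        have : (τ y).re * (τ y).imI = 0 := by linarith
        exact (mul_eq_zero.mp this).resolve_left hne
      have f3 : (τ y).imJ = 0 := by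
        have : (τ y).re * (τ y).imJ = 0 := by linarith
        exact (mul_eq_zero.mp this).resolve_left hne
      have f4 : (τ y).imK = 0 := by
        have : (τ y).re * (τ y).imK = 0 := by linarith
        exact (mul_eq_zero.mp this).resolve_left hne
      rw [f2, f3, f4] at e1
      have : 0 < (τ y).re * (τ y).re := mul_self_pos.mpr hne
      nlinarith [mul_self_nonneg ‖y‖]
    intro y
    have h2 := pure (y - y.re • 1) (by simp)
    rw [map_sub, map_smul, map_one] at h2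
    simp at h2
    linarith
  have h1 : ∀ y : ℍ[ℝ], star y = (2 * y.re) • 1 - y := by
    intro y
    ext <;> simp
    ring
  rw [h1, h1, map_sub, map_smul, map_one, hre]

/-- The key identity `β⁻¹ φ(q) β = q^*`. -/
theorem conj_phi (hφ : IsNonstandard φ) (hβ : φ β = -β) (hn : ‖β‖ = 1) (q : ℍ[ℝ]) :
    β⁻¹ * φ q = star q * β⁻¹ := by
  have hb := beta_sq hφ hβ hn
  have hinv : β⁻¹ = -β := by
    have hb0 : β ≠ 0 := by
      rintro rfl
      rw [mul_zero] at hb
      exact zero_ne_one (neg_eq_zero.mp hb.symm).symm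
    rw [inv_eq_of_mul_eq_one_right]
    rw [mul_neg, hb, neg_neg]
  obtain ⟨τ, hτ, h⟩ := exists_equiv hφ hb hβ
  obtain ⟨x, rfl⟩ := τ.surjective q
  rw [hinv, h, ← star_equiv, ← hτ, ← map_neg, ← map_mul, ← map_mul]
  congr 1
  ext <;> simp

theorem form_isHerm (hφ : IsNonstandard φ) (hβ : φ β = -β) (hn : ‖β‖ = 1)
    {G : Matrix (Fin n) (Fin n) ℍ[ℝ]} (hG : Gᵀ.map φ = -G) :
    IsHerm (fun x y => β⁻¹ * form φ G x y) where
  add_right x y z := by
    simp only [form, Matrix.mulVec_add, dotProduct_add, mul_add]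
  smul_right x y q := by
    simp only [form, mulVec_op_smul]
    simp only [dotProduct, Pi.smul_apply, op_smul_eq_mul, Finset.sum_mul, mul_assoc]
  symm x y := by
    have hb := beta_sq hφ hβ hn
    have hb0 : β ≠ 0 := by
      rintro rfl
      rw [mul_zero] at hb
      exact zero_ne_one (neg_eq_zero.mp hb.symm).symm
    -- `φ (form x y) = - form y x`
    have h1 : φ (form φ G x y) = -form φ G y x := by
      unfold form
      simp only [dotProduct, Matrix.mulVec, map_sum, hφ.mul, hφ.invol, Finset.mul_sum]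
      rw [Finset.sum_comm, ← Finset.sum_neg_distrib]
      refine Finset.sum_congr rfl fun i _ => ?_
      rw [← Finset.sum_neg_distrib]
      refine Finset.sum_congr rfl fun j _ => ?_
      have h2 : φ (G j i) = -G i j := congrFun (congrFun hG i) j
      rw [h2]
      noncomm_ring
    have hre : β.re = 0 := by
      have h1 := φ_re hφ β
      rw [hβ, Quaternion.re_neg] at h1
      linarith
    have hstar : star β = -β := by
      ext <;> simp [hre]
    have h2 : form φ G y x = -φ (form φ G x y) := by rw [h1, neg_neg]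
    rw [h2, mul_neg, conj_phi hφ hβ hn, star_mul, star_inv₀, hstar, inv_neg, mul_neg]

theorem skew' {H A : Matrix (Fin n) (Fin n) ℍ[ℝ]} (hφ : IsNonstandard φ)
    (hA : H * A = -(Aᵀ.map φ * H)) (x y : Fin n → ℍ[ℝ]) :
    form φ (H * A) (A *ᵥ x) y = -form φ (H * A) x (A *ᵥ y) := by
  have h1 : (fun i => φ ((A *ᵥ x) i)) = (fun i => φ (x i)) ᵥ* (Aᵀ.map φ) := by
    ext1 i
    simp only [Matrix.mulVec, Matrix.vecMul, dotProduct, map_sum, hφ.mul]
    rfl
  unfold form
  rw [h1, ← Matrix.dotProduct_mulVec, Matrix.mulVec_mulVec, ← Matrix.mul_assoc,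
    Matrix.mulVec_mulVec]
  have : Aᵀ.map φ * H = -(H * A) := by rw [hA, neg_neg]
  rw [this, Matrix.neg_mul, Matrix.neg_mulVec, dotProduct_neg]

theorem herm' {H A : Matrix (Fin n) (Fin n) ℍ[ℝ]} (hφ : IsNonstandard φ) (hH : Hᵀ.map φ = H)
    (hA : H * A = -(Aᵀ.map φ * H)) : (H * A)ᵀ.map φ = -(H * A) := by
  have h1 : ∀ i j, φ (H j i) = H i j := fun i j => congrFun (congrFun hH i) j
  have h2 : (H * A)ᵀ.map φ = Aᵀ.map φ * H := by
    ext1 i j
    simp only [Matrix.map_apply, Matrix.transpose_apply, Matrix.mul_apply, map_sum, hφ.mul, h1]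
  rw [h2, hA, neg_neg]

/-- The hermitian form attached to the data. -/
noncomputable def G (φ : ℍ[ℝ] →ₗ[ℝ] ℍ[ℝ]) (β : ℍ[ℝ]) (H A : Matrix (Fin n) (Fin n) ℍ[ℝ])
    (x y : Fin n → ℍ[ℝ]) : ℍ[ℝ] := β⁻¹ * form φ (H * A) x y

variable {H A : Matrix (Fin n) (Fin n) ℍ[ℝ]} {N : Subsp n}

theorem Data.isHerm (h : Data φ β H A N) : IsHerm (G φ β H A) :=
  form_isHerm h.nonstandard h.beta h.norm_beta (herm' h.nonstandard h.herm h.skew)

theorem Data.skewG (h : Data φ β H A N) (x y : Fin n → ℍ[ℝ]) :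
    G φ β H A (A *ᵥ x) y = -G φ β H A x (A *ᵥ y) := by
  unfold G
  rw [skew' h.nonstandard h.skew, mul_neg]

theorem Data.beta_ne (h : Data φ β H A N) : β ≠ 0 := by
  intro h0
  have := h.norm_beta
  rw [h0, norm_zero] at this
  exact zero_ne_one this

theorem Data.neutralG (h : Data φ β H A N) : Neutral (G φ β H A) N := fun x hx y hy => by
  unfold G
  rw [h.neutral x hx y hy, mul_zero]

theorem Data.neutralG' (h : Data φ β H A N) : Neutral (fun x y => -G φ β H A x y) N :=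
  fun x hx y hy => by
    change -G φ β H A x y = 0
    rw [h.neutralG x hx y hy, neg_zero]

theorem Data.nonneg_iff (h : Data φ β H A N) (L : Subsp n) :
    IsNonneg φ β (H * A) L ↔ Nonneg (G φ β H A) L := by
  constructor
  · intro h x hx
    obtain ⟨r, hr, hxr⟩ := h x hx
    unfold G
    rw [hxr]
    simpa using hr
  · intro h' x hx
    exact ⟨_, h' x hx, h.isHerm.self x⟩

theorem Data.nonpos_iff (h : Data φ β H A N) (L : Subsp n) :
    IsNonpos φ β (H * A) L ↔ Nonneg (fun x y => -G φ β H A x y) L := by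
  constructor
  · intro h x hx
    obtain ⟨r, hr, hxr⟩ := h x hx
    change 0 ≤ (-G φ β H A x x).re
    unfold G
    rw [hxr]
    simpa using hr
  · intro h' x hx
    refine ⟨(G φ β H A x x).re, ?_, h.isHerm.self x⟩
    have h1 : 0 ≤ (-G φ β H A x x).re := h' x hx
    rw [Quaternion.re_neg] at h1
    linarith

theorem Data.max_nonneg (h : Data φ β H A N) {L : Subsp n}
    (hL : MaxNonneg (G φ β H A) L) : IsMax (IsNonneg φ β (H * A)) L :=
  ⟨(h.nonneg_iff L).mpr hL.1, fun L' h' hle => hL.2 L' hle ((h.nonneg_iff L').mp h')⟩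

theorem Data.max_nonpos (h : Data φ β H A N) {L : Subsp n}
    (hL : MaxNonneg (fun x y => -G φ β H A x y) L) : IsMax (IsNonpos φ β (H * A)) L :=
  ⟨(h.nonpos_iff L).mpr hL.1, fun L' h' hle => hL.2 L' hle ((h.nonpos_iff L').mp h')⟩

theorem Data.rad (h : Data φ β H A N) {x : Fin n → ℍ[ℝ]} (hx : ∀ y, G φ β H A x y = 0) :
    A *ᵥ x = 0 := by
  have h1 : (H * A) *ᵥ x = 0 := by
    ext1 i
    have h2 : G φ β H A (Pi.single i 1) x = 0 := h.isHerm.swap (hx (Pi.single i 1))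
    have h3 : form φ (H * A) (Pi.single i 1) x = 0 :=
      (mul_eq_zero.mp h2).resolve_left (inv_ne_zero h.beta_ne)
    unfold form at h3
    have h4 : (fun j => φ ((Pi.single i 1 : Fin n → ℍ[ℝ]) j)) = Pi.single i 1 := by
      ext1 j
      by_cases hj : j = i
      · subst hj
        rw [Pi.single_eq_same, φ_one h.nonstandard]
      · rw [Pi.single_eq_of_ne hj, map_zero]
    rw [h4, single_one_dotProduct] at h3
    exact h3
  obtain ⟨u, hu⟩ := h.unit
  rw [← hu] at h1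
  have h4 := congrArg (fun z => (u⁻¹).val *ᵥ z) h1
  simp only [Matrix.mulVec_mulVec, ← Matrix.mul_assoc, Units.inv_mul, Matrix.one_mul,
    Matrix.mulVec_zero] at h4
  exact h4

end Pool.Agent.V1117.QuatPhi
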